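import Pool.Agent.Helper22.PSI.Lim

set_option autoImplicit false

/-!
The average of `Psi` over an arithmetic progression.
-/

namespace Pool.Agent.Helper22.PSI

open Finset Filter Topology

lemma one_sub_pow (ζ : ℂ) (h1 : ‖ζ‖ = 1) (j : ℕ) : ‖1 - ζ ^ j‖ ≤ j * ‖1 - ζ‖ := by
  induction j with
  | zero => simp
  | succ j ih =>
    have e : 1 - ζ ^ (j + 1) = (1 - ζ ^ j) + ζ ^ j * (1 - ζ) := by ring
    rw [e]
    refine (norm_add_le _ _).trans ?_
    rw [norm_mul, norm_pow, h1, one_pow, one_mul]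
    push_cast
    linarith

lemma root_gap (ζ : ℂ) (h1 : ‖ζ‖ = 1) (k : ℕ) (hk : 1 ≤ k) (hζ : ζ ^ k = 1) (hne : ζ ≠ 1) :
    2 ≤ k * ‖1 - ζ‖ := by
  have h0 : (1 - ζ) ≠ 0 := sub_ne_zero.mpr (Ne.symm hne)
  have hs : ∑ j ∈ range k, ζ ^ j = 0 := by
    have := mul_neg_geom_sum ζ k
    rw [hζ, sub_self] at this
    exact (mul_eq_zero.mp this).resolve_left h0
  have h2 : (k : ℂ) = ∑ j ∈ range k, (1 - ζ ^ j) := by
    rw [sum_sub_distrib, hs]; simp
  have h3 : (k : ℝ) ≤ ∑ j ∈ range k, (j : ℝ) * ‖1 - ζ‖ := by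
    have h4 : ‖(k : ℂ)‖ = k := by simp
    rw [← h4, h2]
    exact (norm_sum_le _ _).trans (sum_le_sum fun j _ => one_sub_pow ζ h1 j)
  have h5 : ∑ j ∈ range k, (j : ℝ) = k * (k - 1) / 2 := by
    have : ∀ n : ℕ, ∑ j ∈ range n, (j : ℝ) = n * (n - 1) / 2 := by
      intro n
      induction n with
      | zero => simp
      | succ n ih => rw [sum_range_succ, ih]; push_cast; ring
    exact this k
  rw [← sum_mul, h5] at h3
  have hk' : (1 : ℝ) ≤ k := by exact_mod_cast hk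
  have hn : 0 ≤ ‖1 - ζ‖ := norm_nonneg _
  have h6 : (k : ℝ) * 2 ≤ k * ((k - 1) * ‖1 - ζ‖) := by nlinarith
  have h7 : 2 ≤ ((k : ℝ) - 1) * ‖1 - ζ‖ := le_of_mul_le_mul_left h6 (by linarith)
  nlinarith

lemma geom_Ioc (ζ : ℂ) (h1 : ‖ζ‖ = 1) (k : ℕ) (hk : 1 ≤ k) (hζ : ζ ^ k = 1) (hne : ζ ≠ 1)
    (M : ℕ) : ‖∑ m ∈ Ioc M (2 * M), ζ ^ m‖ ≤ k := by
  have hg := root_gap ζ h1 k hk hζ hne
  have h0 : 0 < ‖1 - ζ‖ := norm_pos_iff.mpr (sub_ne_zero.mpr (Ne.symm hne))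
  have e : ∀ n : ℕ, (1 - ζ) * ∑ m ∈ Ioc M (M + n), ζ ^ m = ζ ^ (M + 1) - ζ ^ (M + n + 1) := by
    intro n
    induction n with
    | zero => simp
    | succ n ih =>
      rw [← add_assoc, Finset.sum_Ioc_succ_top (by omega : M ≤ M + n), mul_add, ih]
      ring
  have e2 := e M
  have h3 : ‖1 - ζ‖ * ‖∑ m ∈ Ioc M (2 * M), ζ ^ m‖ ≤ 2 := by
    rw [← norm_mul, two_mul, e2]
    refine (norm_sub_le _ _).trans ?_
    rw [norm_pow, norm_pow, h1, one_pow, one_pow]; norm_num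
  have h4 : ‖1 - ζ‖ * ‖∑ m ∈ Ioc M (2 * M), ζ ^ m‖ ≤ ‖1 - ζ‖ * k := by linarith
  exact le_of_mul_le_mul_left h4 h0

/-- The value of a term at the multiples of `2 k`. -/
noncomputable def cc (k : ℕ) : ℝ := 2 / Real.sqrt k * Real.cos (Real.pi * ((3 * k - 1) / 4))

lemma term_geom (s : ℤ) (P k m : ℕ) (hk : 1 ≤ k) :
    term (s * (2 * P * m)) k = (((2 / Real.sqrt k : ℝ) : ℂ)
      * (Complex.exp (Complex.I * ((Real.pi * ((3 * k - 1) / 4) : ℝ) : ℂ))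
        * Complex.exp (Complex.I * ((-(2 * Real.pi * (s * P) / k) : ℝ) : ℂ)) ^ m)).re := by
  rw [term_eq, zz, ph]
  congr 2
  rw [← Complex.exp_nat_mul, ← Complex.exp_add]
  congr 1
  have h : (k : ℂ) ≠ 0 := by exact_mod_cast (by omega : k ≠ 0)
  push_cast
  field_simp
  ring

lemma term_div (s : ℤ) (P k m : ℕ) (hk : 1 ≤ k) (hd : k ∣ P) :
    term (s * (2 * P * m)) k = cc k := by
  obtain ⟨q, rfl⟩ := hd
  unfold term cc
  congr 1
  have h : (k : ℝ) ≠ 0 := by positivity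
  have e : Real.pi * ((3 * (k : ℝ) - 1) / 4 - (s : ℝ) * (2 * ((k * q : ℕ) : ℝ) * m) / k)
      = Real.pi * ((3 * (k : ℝ) - 1) / 4) - ((s * q * m : ℤ) : ℝ) * (2 * Real.pi) := by
    push_cast
    field_simp
  rw [e, Real.cos_sub_int_mul_two_pi]

lemma sum_nondiv (s : ℤ) (hs : s = 1 ∨ s = -1) (P k M : ℕ) (hk : 1 ≤ k) (hd : ¬ k ∣ P) :
    |∑ m ∈ Ioc M (2 * M), term (s * (2 * P * m)) k| ≤ 2 * Real.sqrt k := by
  set ζ := Complex.exp (Complex.I * ((-(2 * Real.pi * (s * P) / k) : ℝ) : ℂ)) with hζ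
  have hkc : (k : ℂ) ≠ 0 := by exact_mod_cast (by omega : k ≠ 0)
  have hkr : (0 : ℝ) < k := by exact_mod_cast hk
  have h1 : ‖ζ‖ = 1 := by rw [hζ, mul_comm]; exact Complex.norm_exp_ofReal_mul_I _
  have h2 : ζ ^ k = 1 := by
    rw [hζ, ← Complex.exp_nat_mul]
    have e : (k : ℂ) * (Complex.I * ((-(2 * Real.pi * (s * P) / k) : ℝ) : ℂ))
        = ((-(s * P) : ℤ) : ℂ) * (2 * Real.pi * Complex.I) := by
      push_cast
      field_simp
    rw [e]
    exact Complex.exp_int_mul_two_pi_mul_I _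
  have h3 : ζ ≠ 1 := by
    intro h
    rw [hζ, Complex.exp_eq_one_iff] at h
    obtain ⟨n, hn⟩ := h
    have hn2 : ((-(s * P) : ℤ) : ℂ) = ((n * k : ℤ) : ℂ) := by
      have hpi : (Real.pi : ℂ) ≠ 0 := by exact_mod_cast Real.pi_ne_zero
      have hI := Complex.I_ne_zero
      push_cast at hn ⊢
      field_simp at hn
      linear_combination hn
    have hn3 : -(s * (P : ℤ)) = n * k := by exact_mod_cast hn2
    apply hd
    have h5 : (k : ℤ) ∣ (P : ℤ) := by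
      rcases hs with rfl | rfl
      · exact ⟨-n, by linarith⟩
      · exact ⟨n, by linarith⟩
    exact_mod_cast h5
  have e : ∑ m ∈ Ioc M (2 * M), term (s * (2 * P * m)) k
      = (((2 / Real.sqrt k : ℝ) : ℂ)
      * (Complex.exp (Complex.I * ((Real.pi * ((3 * k - 1) / 4) : ℝ) : ℂ))
        * ∑ m ∈ Ioc M (2 * M), ζ ^ m)).re := by
    rw [mul_sum, mul_sum, Complex.re_sum]
    exact sum_congr rfl fun m _ => term_geom s P k m hk
  rw [e]
  refine (Complex.abs_re_le_norm _).trans ?_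
  have h6 : ‖Complex.exp (Complex.I * ((Real.pi * ((3 * k - 1) / 4) : ℝ) : ℂ))‖ = 1 := by
    rw [mul_comm]; exact Complex.norm_exp_ofReal_mul_I _
  rw [norm_mul, norm_mul, h6, one_mul, Complex.norm_real, Real.norm_of_nonneg (by positivity)]
  have h7 := geom_Ioc ζ h1 k hk h2 h3 M
  have h8 : (0 : ℝ) < Real.sqrt k := Real.sqrt_pos.mpr hkr
  calc 2 / Real.sqrt k * ‖∑ m ∈ Ioc M (2 * M), ζ ^ m‖ ≤ 2 / Real.sqrt k * k :=
        mul_le_mul_of_nonneg_left h7 (by positivity)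
    _ = 2 * Real.sqrt k := by
        have := Real.mul_self_sqrt hkr.le
        field_simp
        nlinarith

/-- The sum over the divisors. -/
noncomputable def DD (P : ℕ) : ℝ := ∑ k ∈ P.divisors, cc k

lemma avg_S (s : ℤ) (hs : s = 1 ∨ s = -1) (P K M : ℕ) (hP : 1 ≤ P) (hPK : P ≤ K) :
    |∑ m ∈ Ioc M (2 * M), S (s * (2 * P * m)) K - M * DD P| ≤ 2 * K * Real.sqrt K := by
  have e1 : ∑ m ∈ Ioc M (2 * M), S (s * (2 * P * m)) K
      = ∑ k ∈ Icc 1 K, ∑ m ∈ Ioc M (2 * M), term (s * (2 * P * m)) k := by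
    unfold S; rw [sum_comm]
  have e2 : (M : ℝ) * DD P = ∑ k ∈ Icc 1 K, if k ∣ P then (M : ℝ) * cc k else 0 := by
    rw [← sum_filter, DD, mul_sum]
    refine sum_congr ?_ fun _ _ => rfl
    ext k
    simp only [Nat.mem_divisors, mem_filter, mem_Icc]
    constructor
    · rintro ⟨h1, h2⟩
      exact ⟨⟨Nat.pos_of_dvd_of_pos h1 (by omega), (Nat.le_of_dvd (by omega) h1).trans hPK⟩, h1⟩
    · rintro ⟨_, h2⟩; exact ⟨h2, by omega⟩
  rw [e1, e2, ← sum_sub_distrib]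
  refine (abs_sum_le_sum_abs _ _).trans ?_
  have h3 : ∀ k ∈ Icc 1 K, |∑ m ∈ Ioc M (2 * M), term (s * (2 * P * m)) k
      - (if k ∣ P then (M : ℝ) * cc k else 0)| ≤ 2 * Real.sqrt K := by
    intro k hk
    rw [mem_Icc] at hk
    split_ifs with hd
    · have : ∑ m ∈ Ioc M (2 * M), term (s * (2 * P * m)) k = M * cc k := by
        rw [sum_congr rfl fun m _ => term_div s P k m hk.1 hd, sum_const, Nat.card_Ioc,
          nsmul_eq_mul]
        congr 2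
        omega
      rw [this, sub_self, abs_zero]; positivity
    · rw [sub_zero]
      refine (sum_nondiv s hs P k M hk.1 hd).trans ?_
      exact mul_le_mul_of_nonneg_left (Real.sqrt_le_sqrt (by exact_mod_cast hk.2)) (by norm_num)
  refine (sum_le_sum h3).trans ?_
  rw [sum_const, Nat.card_Icc, nsmul_eq_mul, Nat.add_sub_cancel]
  linarith

lemma avg_Psi (s : ℤ) (hs : s = 1 ∨ s = -1) (P : ℕ) (hP : 1 ≤ P) :
    (∃ t : ℝ, 2 * P ^ 4 ≤ t ∧ t ≤ 4 * P ^ 4 ∧ DD P - 24 ≤ Psi (s * t)) ∧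
    (∃ t : ℝ, 2 * P ^ 4 ≤ t ∧ t ≤ 4 * P ^ 4 ∧ Psi (s * t) ≤ DD P + 24) := by
  have hPr : (1 : ℝ) ≤ P := by exact_mod_cast hP
  have hK : 1 ≤ 4 * P ^ 2 := by have := Nat.one_le_pow 2 P hP; omega
  have hPK : P ≤ 4 * P ^ 2 := by nlinarith
  have h := avg_S s hs P (4 * P ^ 2) (P ^ 3) hP hPK
  have hsq : Real.sqrt ((4 * P ^ 2 : ℕ) : ℝ) = 2 * P := by
    rw [show ((4 * P ^ 2 : ℕ) : ℝ) = (2 * P) ^ 2 by push_cast; ring]
    exact Real.sqrt_sq (by positivity)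
  rw [hsq] at h
  have hM : (0 : ℝ) < ((P ^ 3 : ℕ) : ℝ) := by positivity
  have hcard : ((Ioc (P ^ 3) (2 * P ^ 3)).card : ℝ) = ((P ^ 3 : ℕ) : ℝ) := by
    rw [Nat.card_Ioc]; congr 1; omega
  have hne : (Ioc (P ^ 3) (2 * P ^ 3)).Nonempty := by
    rw [← Finset.card_pos]
    have : 0 < P ^ 3 := by positivity
    rw [Nat.card_Ioc]; omega
  have hS8 : ∀ m ∈ Ioc (P ^ 3) (2 * P ^ 3),
      |Psi (s * (2 * P * m)) - S (s * (2 * P * m)) (4 * P ^ 2)| ≤ 8 := by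
    intro m hm
    rw [mem_Ioc] at hm
    have hm2 : (m : ℝ) ≤ 2 * P ^ 3 := by exact_mod_cast hm.2
    have habs : |((s : ℝ) * (2 * P * m))| = 2 * P * m := by
      rcases hs with rfl | rfl
      · push_cast; rw [one_mul, abs_of_nonneg (by positivity)]
      · push_cast; rw [neg_one_mul, abs_neg, abs_of_nonneg (by positivity)]
    have h4 : 4 * |((s : ℝ) * (2 * P * m))| ≤ ((4 * P ^ 2 : ℕ) : ℝ) ^ 2 := by
      rw [habs]; push_cast
      have : (P : ℝ) * m ≤ P * (2 * P ^ 3) := mul_le_mul_of_nonneg_left hm2 (by positivity)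
      nlinarith
    refine (Psi_sub _ _ h4 hK).trans ?_
    rw [hsq, div_le_iff₀ (by positivity)]
    linarith
  have hrange : ∀ m ∈ Ioc (P ^ 3) (2 * P ^ 3), 2 * (P : ℝ) ^ 4 ≤ 2 * P * m ∧
      2 * (P : ℝ) * m ≤ 4 * P ^ 4 := by
    intro m hm
    rw [mem_Ioc] at hm
    have hm1 : ((P : ℝ)) ^ 3 ≤ m := by exact_mod_cast hm.1.le
    have hm2 : (m : ℝ) ≤ 2 * P ^ 3 := by exact_mod_cast hm.2
    constructor
    · have : (P : ℝ) * P ^ 3 ≤ P * m := mul_le_mul_of_nonneg_left hm1 (by positivity)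
      nlinarith
    · have : (P : ℝ) * m ≤ P * (2 * P ^ 3) := mul_le_mul_of_nonneg_left hm2 (by positivity)
      nlinarith
  have hfin : 2 * ((4 * P ^ 2 : ℕ) : ℝ) * (2 * P) = 16 * ((P ^ 3 : ℕ) : ℝ) := by push_cast; ring
  rw [hfin] at h
  constructor
  · by_contra hcon
    push Not at hcon
    have h5 : ∀ m ∈ Ioc (P ^ 3) (2 * P ^ 3), S (s * (2 * P * m)) (4 * P ^ 2) < DD P - 16 := by
      intro m hm
      obtain ⟨r1, r2⟩ := hrange m hm
      have a := hcon (2 * P * m) r1 r2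
      have b := (abs_le.mp (hS8 m hm)).1
      linarith
    have h6 := sum_lt_sum_of_nonempty hne h5
    rw [sum_const, nsmul_eq_mul, hcard] at h6
    have h7 := (abs_le.mp h).1
    linarith
  · by_contra hcon
    push Not at hcon
    have h5 : ∀ m ∈ Ioc (P ^ 3) (2 * P ^ 3), DD P + 16 < S (s * (2 * P * m)) (4 * P ^ 2) := by
      intro m hm
      obtain ⟨r1, r2⟩ := hrange m hm
      have a := hcon (2 * P * m) r1 r2
      have b := (abs_le.mp (hS8 m hm)).2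
      linarith
    have h6 := sum_lt_sum_of_nonempty hne h5
    rw [sum_const, nsmul_eq_mul, hcard] at h6
    have h7 := (abs_le.mp h).2
    linarith

end Pool.Agent.Helper22.PSI
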