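import Pool.Agent.Helper22.PSI.Avg

set_option autoImplicit false

/-!
The divisor sum for products of primes that are 3 (or 7) modulo 8.
-/

namespace Pool.Agent.Helper22.PSI

open Finset Filter Topology

lemma squarefree_prod (A : Finset ℕ) (hA : ∀ p ∈ A, p.Prime) : Squarefree (∏ p ∈ A, p) := by
  have h : ((∏ p ∈ A, p).primeFactors) = A := Nat.primeFactors_prod hA
  rw [Nat.squarefree_iff_prime_squarefree]
  intro q hq hqq
  have hA0 : ∏ p ∈ A, p ≠ 0 := prod_ne_zero_iff.mpr fun p hp => (hA p hp).ne_zero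
  have hqd : q ∣ ∏ p ∈ A, p := (dvd_mul_right q q).trans hqq
  have hqA : q ∈ A := by
    rw [← h]; exact Nat.mem_primeFactors.mpr ⟨hq, hqd, hA0⟩
  rw [← mul_prod_erase A (fun p => p) hqA] at hqq
  have h2 : q ∣ ∏ p ∈ A.erase q, p := Nat.dvd_of_mul_dvd_mul_left hq.pos hqq
  rw [Prime.dvd_finsetProd_iff hq.prime] at h2
  obtain ⟨p, hp, hqp⟩ := h2
  rw [mem_erase] at hp
  exact hp.1 ((Nat.prime_dvd_prime_iff_eq hq (hA p hp.2)).mp hqp).symm

lemma sum_divisors_prod (A : Finset ℕ) (hA : ∀ p ∈ A, p.Prime) (f : ℕ → ℝ) :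
    ∑ k ∈ (∏ p ∈ A, p).divisors, f k = ∑ B ∈ A.powerset, f (∏ p ∈ B, p) := by
  have hsq := squarefree_prod A hA
  rw [← Nat.divisors_filter_squarefree_of_squarefree hsq,
    Nat.sum_divisors_filter_squarefree hsq.ne_zero]
  have h : (UniqueFactorizationMonoid.normalizedFactors (∏ p ∈ A, p)).toFinset = A := by
    rw [Nat.factors_eq]
    have h2 : (((∏ p ∈ A, p).primeFactorsList : Multiset ℕ)).toFinset = (∏ p ∈ A, p).primeFactors := by
      rfl
    rw [h2, Nat.primeFactors_prod hA]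
  rw [h]
  refine sum_congr rfl fun B _ => ?_
  congr 1
  rw [← Multiset.map_id B.val]
  rfl

lemma prod_mod (a : ℕ) (ha : a = 3 ∨ a = 7) (B : Finset ℕ) (hB : ∀ p ∈ B, p % 8 = a) :
    (∏ p ∈ B, p) % 8 = if Odd B.card then a else 1 := by
  induction B using Finset.induction_on with
  | empty => simp
  | insert q B hq ih =>
    have ih' := ih fun p hp => hB p (mem_insert_of_mem hp)
    rw [prod_insert hq, card_insert_of_notMem hq, Nat.mul_mod, ih', hB q (mem_insert_self _ _)]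
    by_cases h : Odd B.card
    · have h2 : ¬ Odd (B.card + 1) := by
        rw [Nat.not_odd_iff_even]; exact h.add_one
      rw [if_pos h, if_neg h2]
      rcases ha with rfl | rfl <;> norm_num
    · have h2 : Odd (B.card + 1) := (Nat.not_odd_iff_even.mp h).add_one
      rw [if_neg h, if_pos h2]
      rcases ha with rfl | rfl <;> norm_num

lemma cc_one (k : ℕ) (hk : k % 8 = 1) : cc k = 0 := by
  obtain ⟨j, hj⟩ : ∃ j, k = 8 * j + 1 := ⟨k / 8, by omega⟩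
  unfold cc
  have e : Real.pi * ((3 * (k : ℝ) - 1) / 4) = Real.pi / 2 + ((3 * j : ℕ) : ℝ) * (2 * Real.pi) := by
    rw [hj]; push_cast; ring
  rw [e, Real.cos_add_nat_mul_two_pi, Real.cos_pi_div_two, mul_zero]

lemma cc_three (k : ℕ) (hk : k % 8 = 3) : cc k = 2 / Real.sqrt k := by
  obtain ⟨j, hj⟩ : ∃ j, k = 8 * j + 3 := ⟨k / 8, by omega⟩
  unfold cc
  have e : Real.pi * ((3 * (k : ℝ) - 1) / 4) = 0 + ((3 * j + 1 : ℕ) : ℝ) * (2 * Real.pi) := by
    rw [hj]; push_cast; ring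
  rw [e, Real.cos_add_nat_mul_two_pi, Real.cos_zero, mul_one]

lemma cc_seven (k : ℕ) (hk : k % 8 = 7) : cc k = -(2 / Real.sqrt k) := by
  obtain ⟨j, hj⟩ : ∃ j, k = 8 * j + 7 := ⟨k / 8, by omega⟩
  unfold cc
  have e : Real.pi * ((3 * (k : ℝ) - 1) / 4)
      = Real.pi + ((3 * j + 2 : ℕ) : ℝ) * (2 * Real.pi) := by
    rw [hj]; push_cast; ring
  rw [e, Real.cos_add_nat_mul_two_pi, Real.cos_pi]; ring

/-- The sign belonging to the residue class. -/
noncomputable def sg (a : ℕ) : ℝ := if a = 3 then 1 else -1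

lemma cc_prod (a : ℕ) (ha : a = 3 ∨ a = 7) (B : Finset ℕ) (hB : ∀ p ∈ B, p % 8 = a) :
    cc (∏ p ∈ B, p) = sg a * (∏ p ∈ B, (1 / Real.sqrt p) - ∏ p ∈ B, (-(1 / Real.sqrt p))) := by
  have h := prod_mod a ha B hB
  have hs : Real.sqrt ((∏ p ∈ B, p : ℕ) : ℝ) = ∏ p ∈ B, Real.sqrt p := by
    rw [Nat.cast_prod]
    exact Real.sqrt_prod _ fun p _ => Nat.cast_nonneg p
  have hneg : ∏ p ∈ B, (-(1 / Real.sqrt p)) = (-1) ^ B.card * ∏ p ∈ B, (1 / Real.sqrt (p : ℝ)) := by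
    rw [← prod_const, ← prod_mul_distrib]
    exact prod_congr rfl fun p _ => by ring
  have hinv : ∏ p ∈ B, (1 / Real.sqrt (p : ℝ)) = 1 / ∏ p ∈ B, Real.sqrt p := by
    rw [prod_div_distrib, prod_const_one]
  by_cases hodd : Odd B.card
  · rw [if_pos hodd] at h
    rw [hneg, hodd.neg_one_pow, hinv]
    rcases ha with rfl | rfl
    · rw [cc_three _ h, hs, sg, if_pos rfl]; ring
    · rw [cc_seven _ h, hs, sg, if_neg (by norm_num)]; ring
  · rw [if_neg hodd] at h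
    rw [cc_one _ h, hneg, (Nat.not_odd_iff_even.mp hodd).neg_one_pow]; ring

lemma DD_prod (a : ℕ) (ha : a = 3 ∨ a = 7) (A : Finset ℕ) (hA : ∀ p ∈ A, p.Prime)
    (hAa : ∀ p ∈ A, p % 8 = a) :
    DD (∏ p ∈ A, p) = sg a * (∏ p ∈ A, (1 + 1 / Real.sqrt p) - ∏ p ∈ A, (1 - 1 / Real.sqrt p)) := by
  unfold DD
  rw [sum_divisors_prod A hA]
  have h1 : ∏ p ∈ A, (1 + 1 / Real.sqrt (p : ℝ)) = ∑ B ∈ A.powerset, ∏ p ∈ B, (1 / Real.sqrt (p : ℝ)) :=
    prod_one_add _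
  have h2 : ∏ p ∈ A, (1 - 1 / Real.sqrt (p : ℝ))
      = ∑ B ∈ A.powerset, ∏ p ∈ B, (-(1 / Real.sqrt (p : ℝ))) := by
    rw [← prod_one_add]
    exact prod_congr rfl fun p _ => by ring
  rw [h1, h2, ← sum_sub_distrib, mul_sum]
  refine sum_congr rfl fun B hB => ?_
  rw [mem_powerset] at hB
  exact cc_prod a ha B fun p hp => hAa p (hB hp)

lemma DD_lower (a : ℕ) (ha : a = 3 ∨ a = 7) (A : Finset ℕ) (hA : ∀ p ∈ A, p.Prime)
    (hAa : ∀ p ∈ A, p % 8 = a) :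
    Real.exp (∑ p ∈ A, (1 / Real.sqrt p) / 2) - 1 ≤ sg a * DD (∏ p ∈ A, p) := by
  have hsg : sg a * sg a = 1 := by
    rcases ha with rfl | rfl
    · rw [sg, if_pos rfl]; norm_num
    · rw [sg, if_neg (by norm_num)]; norm_num
  rw [DD_prod a ha A hA hAa, ← mul_assoc, hsg, one_mul]
  have hx : ∀ p ∈ A, 0 ≤ 1 / Real.sqrt (p : ℝ) ∧ 1 / Real.sqrt (p : ℝ) ≤ 1 := by
    intro p hp
    refine ⟨by positivity, ?_⟩
    have h1 : (1 : ℝ) ≤ p := by exact_mod_cast (hA p hp).one_le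
    have h2 : 1 ≤ Real.sqrt p := Real.one_le_sqrt.mpr h1
    rw [div_le_one (by linarith)]; exact h2
  have h1 : ∏ p ∈ A, (1 - 1 / Real.sqrt (p : ℝ)) ≤ 1 :=
    prod_le_one (fun p hp => by linarith [(hx p hp).2]) (fun p hp => by linarith [(hx p hp).1])
  have h2 : Real.exp (∑ p ∈ A, (1 / Real.sqrt p) / 2) ≤ ∏ p ∈ A, (1 + 1 / Real.sqrt (p : ℝ)) := by
    rw [Real.exp_sum]
    refine prod_le_prod (fun p _ => (Real.exp_pos _).le) fun p hp => ?_
    obtain ⟨h3, h4⟩ := hx p hp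
    set x := 1 / Real.sqrt (p : ℝ)
    have h5 := Real.add_one_le_exp (-(x / 2))
    have h6 : Real.exp (x / 2) * Real.exp (-(x / 2)) = 1 := by
      rw [← Real.exp_add]; simp
    have h7 : 0 < Real.exp (x / 2) := Real.exp_pos _
    have h8 : Real.exp (x / 2) * (1 - x / 2) ≤ 1 := by nlinarith
    have h9 : 1 ≤ (1 + x) * (1 - x / 2) := by nlinarith
    have h10 : 0 < 1 - x / 2 := by linarith
    exact le_of_mul_le_mul_right (h8.trans h9) h10
  linarith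

end Pool.Agent.Helper22.PSI
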