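import Pool.Agent.Helper22.PSI.MS1

set_option autoImplicit false

/-!
Hilbert's inequality, by the integral against the saw-tooth.
-/

namespace Pool.Agent.Helper22.PSI

open Finset Filter Topology

lemma sin_period (α : ℝ) (n : ℤ) : Real.sin (α + 2 * Real.pi * n) = Real.sin α := by
  have := Real.sin_add_int_mul_two_pi α n
  rwa [show α + (n : ℝ) * (2 * Real.pi) = α + 2 * Real.pi * n by ring] at this

lemma cos_period (α : ℝ) (n : ℤ) : Real.cos (α + 2 * Real.pi * n) = Real.cos α := by
  have := Real.cos_add_int_mul_two_pi α n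
  rwa [show α + (n : ℝ) * (2 * Real.pi) = α + 2 * Real.pi * n by ring] at this

lemma saw (α : ℝ) (n : ℤ) (hn : n ≠ 0) :
    ∫ y in (0 : ℝ)..1, (y - 1 / 2) * Real.cos (α + 2 * Real.pi * n * y)
      = Real.sin α / (2 * Real.pi * n) := by
  have hn' : (n : ℝ) ≠ 0 := by exact_mod_cast hn
  have hw : 2 * Real.pi * (n : ℝ) ≠ 0 := mul_ne_zero (by positivity) hn'
  have hd : ∀ y ∈ Set.uIcc (0 : ℝ) 1, HasDerivAt
      (fun y : ℝ => (y - 1 / 2) * (Real.sin (α + 2 * Real.pi * n * y) / (2 * Real.pi * n))
        + Real.cos (α + 2 * Real.pi * n * y) / (2 * Real.pi * n) ^ 2)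
      ((y - 1 / 2) * Real.cos (α + 2 * Real.pi * n * y)) y := by
    intro y _
    have h1 : HasDerivAt (fun y : ℝ => α + 2 * Real.pi * n * y) (2 * Real.pi * n) y := by
      simpa using ((hasDerivAt_id y).const_mul (2 * Real.pi * (n : ℝ))).const_add α
    have h2 := ((hasDerivAt_id y).sub_const (1 / 2)).mul (h1.sin.div_const (2 * Real.pi * n))
    have h3 := h2.add (h1.cos.div_const ((2 * Real.pi * n) ^ 2))
    refine h3.congr_deriv ?_
    simp only [id]
    field_simp
    ring
  rw [intervalIntegral.integral_eq_sub_of_hasDerivAt hd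
    (Continuous.intervalIntegrable (by fun_prop) _ _)]
  simp only [mul_one, mul_zero, add_zero]
  rw [sin_period, cos_period]
  ring

lemma int_cos_zero (α : ℝ) (n : ℤ) (hn : n ≠ 0) :
    ∫ y in (0 : ℝ)..1, Real.cos (α + 2 * Real.pi * n * y) = 0 := by
  have hn' : (n : ℝ) ≠ 0 := by exact_mod_cast hn
  have hw : 2 * Real.pi * (n : ℝ) ≠ 0 := mul_ne_zero (by positivity) hn'
  rw [intervalIntegral.integral_comp_add_mul _ hw, integral_cos, mul_one, mul_zero, add_zero,
    sin_period, sub_self, smul_zero]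

/-- Hilbert's inequality. -/
lemma hilbert (A : Finset ℕ) (x φ : ℕ → ℝ) :
    |∑ k ∈ A, ∑ l ∈ A.erase k, x k * x l * (Real.sin (φ k - φ l) / ((k : ℝ) - l))|
      ≤ Real.pi * ∑ k ∈ A, x k ^ 2 := by
  have hpi := Real.pi_pos
  set W : ℝ → ℝ := fun y => ∑ k ∈ A, ∑ l ∈ A, x k * x l *
    Real.cos (φ k - φ l + 2 * Real.pi * ((k : ℤ) - l : ℤ) * y) with hW
  have hc : Continuous W := by
    refine continuous_finsetSum _ fun k _ => continuous_finsetSum _ fun l _ => ?_
    fun_prop
  have hpos : ∀ y, 0 ≤ W y := by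
    intro y
    have e : W y = (∑ k ∈ A, x k * Real.cos (φ k + 2 * Real.pi * k * y)) ^ 2
        + (∑ k ∈ A, x k * Real.sin (φ k + 2 * Real.pi * k * y)) ^ 2 := by
      rw [pow_two, pow_two, sum_mul_sum, sum_mul_sum, ← sum_add_distrib, hW]
      refine sum_congr rfl fun k _ => ?_
      rw [← sum_add_distrib]
      refine sum_congr rfl fun l _ => ?_
      have e1 : φ k - φ l + 2 * Real.pi * ((k : ℤ) - l : ℤ) * y
          = (φ k + 2 * Real.pi * k * y) - (φ l + 2 * Real.pi * l * y) := by
        push_cast; ring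
      rw [e1, Real.cos_sub]
      ring
    rw [e]; positivity
  have hne : ∀ k l : ℕ, l ≠ k → ((k : ℤ) - l : ℤ) ≠ 0 := by
    intro k l h; omega
  have i1 : ∫ y in (0 : ℝ)..1, W y = ∑ k ∈ A, x k ^ 2 := by
    rw [hW]
    rw [intervalIntegral.integral_finsetSum (fun k _ => by
      apply Continuous.intervalIntegrable
      exact continuous_finsetSum _ fun l _ => by fun_prop)]
    refine sum_congr rfl fun k hk => ?_
    rw [intervalIntegral.integral_finsetSum (fun l _ => by
      apply Continuous.intervalIntegrable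
      fun_prop), ← add_sum_erase _ _ hk]
    have z : ∑ l ∈ A.erase k, (∫ y in (0 : ℝ)..1, x k * x l *
        Real.cos (φ k - φ l + 2 * Real.pi * ((k : ℤ) - l : ℤ) * y)) = 0 := by
      refine sum_eq_zero fun l hl => ?_
      rw [intervalIntegral.integral_const_mul, int_cos_zero _ _ (hne k l (ne_of_mem_erase hl)),
        mul_zero]
    rw [z, add_zero]
    simp only [sub_self, Int.cast_zero, mul_zero, zero_mul, add_zero, Real.cos_zero, mul_one]
    rw [intervalIntegral.integral_const, sub_zero, one_smul, pow_two]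
  have i2 : ∫ y in (0 : ℝ)..1, (y - 1 / 2) * W y = (2 * Real.pi)⁻¹ *
      ∑ k ∈ A, ∑ l ∈ A.erase k, x k * x l * (Real.sin (φ k - φ l) / ((k : ℝ) - l)) := by
    have e0 : ∀ y : ℝ, (y - 1 / 2) * W y = ∑ k ∈ A, ∑ l ∈ A, x k * x l * ((y - 1 / 2) *
        Real.cos (φ k - φ l + 2 * Real.pi * ((k : ℤ) - l : ℤ) * y)) := by
      intro y
      rw [hW]
      simp only
      rw [mul_sum]
      refine sum_congr rfl fun k _ => ?_
      rw [mul_sum]
      refine sum_congr rfl fun l _ => ?_
      ring
    simp only [e0]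
    rw [intervalIntegral.integral_finsetSum (fun k _ => by
      apply Continuous.intervalIntegrable
      exact continuous_finsetSum _ fun l _ => by fun_prop), mul_sum]
    refine sum_congr rfl fun k hk => ?_
    rw [intervalIntegral.integral_finsetSum (fun l _ => by
      apply Continuous.intervalIntegrable
      fun_prop), ← add_sum_erase _ _ hk, mul_sum]
    have z : (∫ y in (0 : ℝ)..1, x k * x k * ((y - 1 / 2) *
        Real.cos (φ k - φ k + 2 * Real.pi * ((k : ℤ) - k : ℤ) * y))) = 0 := by
      simp only [sub_self, Int.cast_zero, mul_zero, zero_mul, add_zero, Real.cos_zero, mul_one]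
      rw [intervalIntegral.integral_const_mul]
      have : ∫ y in (0 : ℝ)..1, (y - 1 / 2) = 0 := by
        have h1 := intervalIntegral.integral_sub (μ := MeasureTheory.volume) (a := (0 : ℝ))
          (b := 1) (f := fun y : ℝ => y) (g := fun _ : ℝ => (1 / 2 : ℝ))
          (Continuous.intervalIntegrable (by fun_prop) _ _) intervalIntegrable_const
        rw [h1, integral_id, intervalIntegral.integral_const]
        norm_num
      rw [this, mul_zero]
    rw [z, zero_add]
    refine sum_congr rfl fun l hl => ?_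
    rw [intervalIntegral.integral_const_mul, saw _ _ (hne k l (ne_of_mem_erase hl))]
    push_cast
    rw [mul_comm (2 * Real.pi)⁻¹, mul_assoc (x k * x l), ← div_eq_mul_inv, div_div,
      mul_comm ((k : ℝ) - l)]
  have hb : |∫ y in (0 : ℝ)..1, (y - 1 / 2) * W y| ≤ ∫ y in (0 : ℝ)..1, 1 / 2 * W y := by
    refine (intervalIntegral.abs_integral_le_integral_abs zero_le_one).trans ?_
    refine intervalIntegral.integral_mono_on zero_le_one
      (Continuous.intervalIntegrable (by fun_prop) _ _)
      (Continuous.intervalIntegrable (by fun_prop) _ _) ?_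
    intro y hy
    rw [abs_mul, abs_of_nonneg (hpos y)]
    refine mul_le_mul_of_nonneg_right ?_ (hpos y)
    rw [abs_le]
    constructor <;> linarith [hy.1, hy.2]
  rw [i2, intervalIntegral.integral_const_mul, i1, abs_mul,
    abs_of_pos (by positivity : (0 : ℝ) < (2 * Real.pi)⁻¹)] at hb
  have h3 := mul_le_mul_of_nonneg_left hb (by positivity : (0 : ℝ) ≤ 2 * Real.pi)
  rw [← mul_assoc, mul_inv_cancel₀ (by positivity), one_mul] at h3
  refine h3.trans (le_of_eq ?_)
  ring

end Pool.Agent.Helper22.PSI
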