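import Pool.Agent.Helper22.PSI.Tail

set_option autoImplicit false

/-!
Convergence and continuity of `Psi`.
-/

namespace Pool.Agent.Helper22.PSI

open Finset Filter Topology

lemma exists_K (t ε : ℝ) (hε : 0 < ε) :
    ∃ K : ℕ, 1 ≤ K ∧ 4 * |t| ≤ (K : ℝ) ^ 2 ∧ 8 / Real.sqrt K < ε := by
  obtain ⟨K, hK⟩ := exists_nat_gt (max (4 * |t| + 1) ((8 / ε) ^ 2))
  have h1 := (le_max_left _ _).trans_lt hK
  have h2 := (le_max_right _ _).trans_lt hK
  have h0 : 0 ≤ |t| := abs_nonneg t
  have hK1 : (1 : ℝ) < K := by linarith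
  refine ⟨K, by exact_mod_cast hK1.le, by nlinarith, ?_⟩
  have h3 : 8 / ε < Real.sqrt K := by
    rw [← Real.sqrt_sq (by positivity : (0 : ℝ) ≤ 8 / ε)]
    exact Real.sqrt_lt_sqrt (by positivity) h2
  rw [div_lt_iff₀ hε] at h3
  rw [div_lt_iff₀ (Real.sqrt_pos.mpr (by linarith))]
  linarith

lemma cauchy (t : ℝ) : CauchySeq (S t) := by
  rw [Metric.cauchySeq_iff']
  intro ε hε
  obtain ⟨K, h1, h2, h3⟩ := exists_K t ε hε
  exact ⟨K, fun N hN => by rw [Real.dist_eq]; exact (tail t K N h2 h1 hN).trans_lt h3⟩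

/-- The function of the problem. -/
noncomputable def Psi (t : ℝ) : ℝ := limUnder atTop (S t)

lemma tendsto_Psi (t : ℝ) : Tendsto (S t) atTop (𝓝 (Psi t)) :=
  (cauchy t).tendsto_limUnder

lemma Psi_sub (t : ℝ) (K : ℕ) (ht : 4 * |t| ≤ (K : ℝ) ^ 2) (hK : 1 ≤ K) :
    |Psi t - S t K| ≤ 8 / Real.sqrt K := by
  have h : Tendsto (fun N => |S t N - S t K|) atTop (𝓝 |Psi t - S t K|) :=
    ((tendsto_Psi t).sub_const _).abs
  exact le_of_tendsto h (eventually_atTop.mpr ⟨K, fun N hN => tail t K N ht hK hN⟩)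

lemma continuous_term (k : ℕ) : Continuous (fun t => term t k) := by
  unfold term; fun_prop

lemma continuous_S (N : ℕ) : Continuous (fun t => S t N) := by
  unfold S
  exact continuous_finsetSum _ fun k _ => continuous_term k

lemma continuous_Psi : Continuous Psi := by
  have h : TendstoLocallyUniformly (fun N t => S t N) Psi atTop := by
    rw [Metric.tendstoLocallyUniformly_iff]
    intro ε hε x
    refine ⟨Metric.ball x 1, Metric.ball_mem_nhds x one_pos, ?_⟩
    obtain ⟨K, h1, h2, h3⟩ := exists_K (|x| + 1) ε hε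
    filter_upwards [eventually_ge_atTop K] with N hN y hy
    rw [Real.dist_eq]
    have hy' : |y| ≤ |x| + 1 := by
      rw [Metric.mem_ball, Real.dist_eq] at hy
      have := abs_sub_abs_le_abs_sub y x
      linarith
    have hN' : (K : ℝ) ≤ N := by exact_mod_cast hN
    have hK0 : (0 : ℝ) ≤ K := Nat.cast_nonneg _
    have h4 : 4 * |y| ≤ (N : ℝ) ^ 2 := by
      have h5 : |(|x| + 1)| = |x| + 1 := abs_of_nonneg (by positivity)
      rw [h5] at h2
      nlinarith
    refine (Psi_sub y N h4 (h1.trans hN)).trans_lt (lt_of_le_of_lt ?_ h3)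
    have h0 : (0 : ℝ) < Real.sqrt K := Real.sqrt_pos.mpr (by exact_mod_cast h1)
    exact div_le_div_of_nonneg_left (by norm_num) h0 (Real.sqrt_le_sqrt hN')
  exact h.continuous (Frequently.of_forall fun N => continuous_S N)

end Pool.Agent.Helper22.PSI
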