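import Pool.Agent.Helper22.PSI.Lim

set_option autoImplicit false

/-!
The mean square of the head of `Psi` over `[T, 2 T]`.
-/

namespace Pool.Agent.Helper22.PSI

open Finset Filter Topology

lemma int_cos (c η a b : ℝ) (hη : η ≠ 0) :
    |∫ t in a..b, Real.cos (c - η * t)| ≤ 2 / |η| := by
  rw [intervalIntegral.integral_comp_sub_mul _ hη, integral_cos, smul_eq_mul, abs_mul, abs_inv,
    div_eq_inv_mul]
  refine mul_le_mul_of_nonneg_left ?_ (by positivity)
  refine (abs_sub _ _).trans ?_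
  linarith [Real.abs_sin_le_one (c - η * a), Real.abs_sin_le_one (c - η * b)]

/-- The constant part of the phase. -/
noncomputable def p0 (k : ℕ) : ℝ := Real.pi * ((3 * k - 1) / 4)

lemma term_mul (s : ℤ) (t : ℝ) (k l : ℕ) :
    term (s * t) k * term (s * t) l = 2 / Real.sqrt k * (2 / Real.sqrt l) / 2 *
      (Real.cos ((p0 k - p0 l) - (Real.pi * s * (1 / k - 1 / l)) * t)
        + Real.cos ((p0 k + p0 l) - (Real.pi * s * (1 / k + 1 / l)) * t)) := by
  unfold term p0
  have e1 : Real.pi * ((3 * (k : ℝ) - 1) / 4) - Real.pi * ((3 * (l : ℝ) - 1) / 4)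
      - Real.pi * s * (1 / k - 1 / l) * t
      = Real.pi * ((3 * (k : ℝ) - 1) / 4 - s * t / k) - Real.pi * ((3 * (l : ℝ) - 1) / 4 - s * t / l) := by
    ring
  have e2 : Real.pi * ((3 * (k : ℝ) - 1) / 4) + Real.pi * ((3 * (l : ℝ) - 1) / 4)
      - Real.pi * s * (1 / k + 1 / l) * t
      = Real.pi * ((3 * (k : ℝ) - 1) / 4 - s * t / k) + Real.pi * ((3 * (l : ℝ) - 1) / 4 - s * t / l) := by
    ring
  rw [e1, e2, Real.cos_sub, Real.cos_add]
  ring

lemma sign_ne (s : ℤ) (hs : s = 1 ∨ s = -1) : |(s : ℝ)| = 1 := by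
  rcases hs with rfl | rfl <;> simp

lemma int_diag (s : ℤ) (hs : s = 1 ∨ s = -1) (T : ℝ) (k : ℕ) (hk : 1 ≤ k) :
    |(∫ t in T..2 * T, term (s * t) k * term (s * t) k) - T * (2 / k)| ≤ 2 := by
  have hkr : (0 : ℝ) < k := by exact_mod_cast hk
  have hsq : Real.sqrt k * Real.sqrt k = k := Real.mul_self_sqrt hkr.le
  have hs0 : 0 < Real.sqrt k := Real.sqrt_pos.mpr hkr
  have hη : Real.pi * s * (1 / k + 1 / k) ≠ 0 := by
    intro h
    have h1 : |Real.pi * s * (1 / (k : ℝ) + 1 / k)| = 0 := by rw [h, abs_zero]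
    rw [abs_mul, abs_mul, sign_ne s hs, abs_of_pos Real.pi_pos, mul_one,
      abs_of_pos (by positivity)] at h1
    have : 0 < Real.pi * (1 / (k : ℝ) + 1 / k) := by positivity
    linarith
  have e : ∀ t : ℝ, term (s * t) k * term (s * t) k
      = 2 / k + 2 / k * Real.cos ((p0 k + p0 k) - (Real.pi * s * (1 / k + 1 / k)) * t) := by
    intro t
    rw [term_mul]
    have h1 : 2 / Real.sqrt k * (2 / Real.sqrt k) / 2 = 2 / (k : ℝ) := by
      rw [div_mul_div_comm, hsq]; ring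
    rw [h1, sub_self, sub_self, mul_zero, zero_mul, sub_zero, Real.cos_zero]
    ring
  simp only [e]
  rw [intervalIntegral.integral_add (Continuous.intervalIntegrable (by fun_prop) _ _)
      (Continuous.intervalIntegrable (by fun_prop) _ _),
    intervalIntegral.integral_const, intervalIntegral.integral_const_mul, smul_eq_mul]
  have h2 := int_cos (p0 k + p0 k) _ T (2 * T) hη
  have h3 : |Real.pi * s * (1 / (k : ℝ) + 1 / k)| = 2 * Real.pi / k := by
    rw [abs_mul, abs_mul, sign_ne s hs, abs_of_pos Real.pi_pos, mul_one,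
      abs_of_pos (by positivity)]
    ring
  rw [h3] at h2
  have e2 : (2 * T - T) * (2 / (k : ℝ)) + 2 / k * (∫ t in T..2 * T,
      Real.cos ((p0 k + p0 k) - (Real.pi * s * (1 / k + 1 / k)) * t)) - T * (2 / k)
      = 2 / k * (∫ t in T..2 * T,
      Real.cos ((p0 k + p0 k) - (Real.pi * s * (1 / k + 1 / k)) * t)) := by ring
  rw [e2, abs_mul, abs_of_pos (by positivity : (0 : ℝ) < 2 / k)]
  calc 2 / (k : ℝ) * |∫ t in T..2 * T,
      Real.cos ((p0 k + p0 k) - (Real.pi * s * (1 / k + 1 / k)) * t)|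
      ≤ 2 / k * (2 / (2 * Real.pi / k)) := mul_le_mul_of_nonneg_left h2 (by positivity)
    _ = 2 / Real.pi := by field_simp
    _ ≤ 2 := by
        rw [div_le_iff₀ Real.pi_pos]
        nlinarith [Real.pi_gt_three]

lemma freq_ge (s : ℤ) (hs : s = 1 ∨ s = -1) (k l : ℕ) (hk : 1 ≤ k) (hl : 1 ≤ l) :
    |(k : ℝ) - l| / (k * l) ≤ |Real.pi * s * (1 / k - 1 / l)| ∧
    |(k : ℝ) - l| / (k * l) ≤ |Real.pi * s * (1 / k + 1 / l)| := by
  have hkr : (0 : ℝ) < k := by exact_mod_cast hk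
  have hlr : (0 : ℝ) < l := by exact_mod_cast hl
  have hpi : 1 ≤ Real.pi := by linarith [Real.pi_gt_three]
  have e1 : |(1 : ℝ) / k - 1 / l| = |(k : ℝ) - l| / (k * l) := by
    have e0 : (1 : ℝ) / k - 1 / l = ((l : ℝ) - k) / (k * l) := by field_simp
    rw [e0, abs_div, abs_sub_comm (l : ℝ) k, abs_of_pos (by positivity : (0 : ℝ) < k * l)]
  have e2 : |(1 : ℝ) / k + 1 / l| = ((k : ℝ) + l) / (k * l) := by
    rw [abs_of_pos (by positivity)]
    field_simp
    ring
  have h0 : 0 ≤ |(k : ℝ) - l| / (k * l) := by positivity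
  constructor
  · rw [abs_mul, abs_mul, sign_ne s hs, abs_of_pos Real.pi_pos, mul_one, e1]
    nlinarith
  · rw [abs_mul, abs_mul, sign_ne s hs, abs_of_pos Real.pi_pos, mul_one, e2]
    have h1 : |(k : ℝ) - l| / (k * l) ≤ ((k : ℝ) + l) / (k * l) := by
      refine div_le_div_of_nonneg_right ?_ (by positivity)
      rw [abs_le]; constructor <;> linarith
    nlinarith

lemma int_off (s : ℤ) (hs : s = 1 ∨ s = -1) (T : ℝ) (K k l : ℕ) (hk : 1 ≤ k) (hl : 1 ≤ l)
    (hkK : k ≤ K) (hlK : l ≤ K) (hkl : k ≠ l) :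
    |∫ t in T..2 * T, term (s * t) k * term (s * t) l| ≤ 8 * K / |(k : ℝ) - l| := by
  have hkr : (0 : ℝ) < k := by exact_mod_cast hk
  have hlr : (0 : ℝ) < l := by exact_mod_cast hl
  have hd : (0 : ℝ) < |(k : ℝ) - l| := by
    rw [abs_pos, sub_ne_zero]; exact_mod_cast hkl
  obtain ⟨f1, f2⟩ := freq_ge s hs k l hk hl
  have hf0 : 0 < |(k : ℝ) - l| / (k * l) := by positivity
  have n1 : Real.pi * s * (1 / k - 1 / l) ≠ 0 := abs_pos.mp (hf0.trans_le f1)
  have n2 : Real.pi * s * (1 / k + 1 / l) ≠ 0 := abs_pos.mp (hf0.trans_le f2)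
  simp only [term_mul]
  rw [intervalIntegral.integral_const_mul,
    intervalIntegral.integral_add (Continuous.intervalIntegrable (by fun_prop) _ _)
      (Continuous.intervalIntegrable (by fun_prop) _ _)]
  have h1 := (int_cos (p0 k - p0 l) _ T (2 * T) n1).trans
    (div_le_div_of_nonneg_left (by norm_num) hf0 f1)
  have h2 := (int_cos (p0 k + p0 l) _ T (2 * T) n2).trans
    (div_le_div_of_nonneg_left (by norm_num) hf0 f2)
  have hsk : 0 < Real.sqrt k := Real.sqrt_pos.mpr hkr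
  have hsl : 0 < Real.sqrt l := Real.sqrt_pos.mpr hlr
  rw [abs_mul, abs_of_pos (by positivity : (0 : ℝ) < 2 / Real.sqrt k * (2 / Real.sqrt l) / 2)]
  have h3 := (abs_add_le _ _).trans (add_le_add h1 h2)
  refine (mul_le_mul_of_nonneg_left h3 (by positivity)).trans ?_
  have hk2 : Real.sqrt k * Real.sqrt k = k := Real.mul_self_sqrt hkr.le
  have hl2 : Real.sqrt l * Real.sqrt l = l := Real.mul_self_sqrt hlr.le
  have e : 2 / Real.sqrt k * (2 / Real.sqrt l) / 2
      * (2 / (|(k : ℝ) - l| / (k * l)) + 2 / (|(k : ℝ) - l| / (k * l)))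
      = 8 * (Real.sqrt k * Real.sqrt l) / |(k : ℝ) - l| := by
    have e0 : (k : ℝ) * l = (Real.sqrt k * Real.sqrt l) * (Real.sqrt k * Real.sqrt l) := by
      calc (k : ℝ) * l = (Real.sqrt k * Real.sqrt k) * (Real.sqrt l * Real.sqrt l) := by
            rw [hk2, hl2]
        _ = _ := by ring
    rw [e0]
    field_simp
    ring
  rw [e]
  refine div_le_div_of_nonneg_right ?_ hd.le
  refine mul_le_mul_of_nonneg_left ?_ (by norm_num)
  have h4 : Real.sqrt k ≤ Real.sqrt K := Real.sqrt_le_sqrt (by exact_mod_cast hkK)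
  have h5 : Real.sqrt l ≤ Real.sqrt K := Real.sqrt_le_sqrt (by exact_mod_cast hlK)
  calc Real.sqrt k * Real.sqrt l ≤ Real.sqrt K * Real.sqrt K :=
        mul_le_mul h4 h5 hsl.le (Real.sqrt_nonneg _)
    _ = K := Real.mul_self_sqrt (Nat.cast_nonneg K)

lemma sum_inj_le (s t : Finset ℕ) (g : ℕ → ℕ) (f : ℕ → ℝ) (hg : Set.InjOn g s)
    (hst : ∀ x ∈ s, g x ∈ t) (hf : ∀ i, 0 ≤ f i) : ∑ x ∈ s, f (g x) ≤ ∑ i ∈ t, f i := by
  rw [← sum_image hg]
  exact sum_le_sum_of_subset_of_nonneg (by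
    intro i hi
    rw [mem_image] at hi
    obtain ⟨x, hx, rfl⟩ := hi
    exact hst x hx) fun i _ _ => hf i

/-- The harmonic number. -/
noncomputable def H (n : ℕ) : ℝ := ∑ i ∈ Icc 1 n, 1 / (i : ℝ)

lemma H_eq (n : ℕ) : H n = (harmonic n : ℚ) := by
  rw [harmonic_eq_sum_Icc, H]
  push_cast
  exact sum_congr rfl fun i _ => by rw [one_div]

lemma H_le (n : ℕ) : H n ≤ 1 + Real.log n := by
  rw [H_eq]; exact harmonic_le_one_add_log n

lemma le_H (n : ℕ) : Real.log (n + 1) ≤ H n := by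
  rw [H_eq]
  have := log_add_one_le_harmonic n
  push_cast at this
  exact this

lemma H_nonneg (n : ℕ) : 0 ≤ H n := sum_nonneg fun i _ => by positivity

lemma sum_dist (K k : ℕ) (hk : k ∈ Icc 1 K) :
    ∑ l ∈ (Icc 1 K).erase k, 1 / |(k : ℝ) - l| ≤ 2 * H K := by
  rw [mem_Icc] at hk
  have hsplit : (Icc 1 K).erase k = Ico 1 k ∪ Ioc k K := by
    ext l; simp only [mem_erase, mem_Icc, mem_union, mem_Ico, mem_Ioc]; omega
  have hdis : Disjoint (Ico 1 k) (Ioc k K) := by
    rw [disjoint_left]; intro l; simp only [mem_Ico, mem_Ioc]; omega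
  rw [hsplit, sum_union hdis]
  have h1 : ∑ l ∈ Ico 1 k, 1 / |(k : ℝ) - l| ≤ H K := by
    have e : ∀ l ∈ Ico 1 k, 1 / |(k : ℝ) - l| = 1 / ((k - l : ℕ) : ℝ) := by
      intro l hl
      rw [mem_Ico] at hl
      rw [Nat.cast_sub hl.2.le, abs_of_nonneg]
      have : (l : ℝ) ≤ k := by exact_mod_cast hl.2.le
      linarith
    rw [sum_congr rfl e]
    refine sum_inj_le _ (Icc 1 K) (fun l => k - l) (fun i => 1 / (i : ℝ)) ?_ ?_
      fun i => by positivity
    · intro a ha b hb hab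
      simp only [coe_Ico, Set.mem_Ico] at ha hb hab
      omega
    · intro l hl
      rw [mem_Ico] at hl
      rw [mem_Icc]; omega
  have h2 : ∑ l ∈ Ioc k K, 1 / |(k : ℝ) - l| ≤ H K := by
    have e : ∀ l ∈ Ioc k K, 1 / |(k : ℝ) - l| = 1 / ((l - k : ℕ) : ℝ) := by
      intro l hl
      rw [mem_Ioc] at hl
      rw [Nat.cast_sub hl.1.le, abs_sub_comm, abs_of_nonneg]
      have : (k : ℝ) ≤ l := by exact_mod_cast hl.1.le
      linarith
    rw [sum_congr rfl e]
    refine sum_inj_le _ (Icc 1 K) (fun l => l - k) (fun i => 1 / (i : ℝ)) ?_ ?_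
      fun i => by positivity
    · intro a ha b hb hab
      simp only [coe_Ioc, Set.mem_Ioc] at ha hb hab
      omega
    · intro l hl
      rw [mem_Ioc] at hl
      rw [mem_Icc]; omega
  linarith

lemma cont_term (s : ℤ) (k : ℕ) : Continuous fun t : ℝ => term (s * t) k := by
  unfold term; fun_prop

/-- The mean square of the head. -/
lemma head_ms (s : ℤ) (hs : s = 1 ∨ s = -1) (T : ℝ) (K : ℕ) :
    |(∫ t in T..2 * T, S (s * t) K ^ 2) - 2 * T * H K| ≤ 2 * K + 16 * K ^ 2 * H K := by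
  have e1 : ∀ t : ℝ, S (s * t) K ^ 2
      = ∑ k ∈ Icc 1 K, ∑ l ∈ Icc 1 K, term (s * t) k * term (s * t) l := by
    intro t
    rw [pow_two, S, sum_mul_sum]
  simp only [e1]
  have hint : ∀ k l : ℕ, IntervalIntegrable (fun t : ℝ => term (s * t) k * term (s * t) l)
      MeasureTheory.volume T (2 * T) := fun k l =>
    ((cont_term s k).mul (cont_term s l)).intervalIntegrable _ _
  rw [intervalIntegral.integral_finsetSum (fun k _ => by
    apply Continuous.intervalIntegrable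
    exact continuous_finsetSum _ fun l _ => (cont_term s k).mul (cont_term s l))]
  have e2 : ∀ k ∈ Icc 1 K, (∫ t in T..2 * T, ∑ l ∈ Icc 1 K, term (s * t) k * term (s * t) l)
      = ∑ l ∈ Icc 1 K, ∫ t in T..2 * T, term (s * t) k * term (s * t) l := fun k _ =>
    intervalIntegral.integral_finsetSum fun l _ => hint k l
  rw [sum_congr rfl e2]
  have e3 : 2 * T * H K = ∑ k ∈ Icc 1 K, T * (2 / k) := by
    rw [H, mul_sum]
    exact sum_congr rfl fun k _ => by ring
  rw [e3, ← sum_sub_distrib]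
  refine (abs_sum_le_sum_abs _ _).trans ?_
  have h : ∀ k ∈ Icc 1 K, |∑ l ∈ Icc 1 K, (∫ t in T..2 * T, term (s * t) k * term (s * t) l)
      - T * (2 / k)| ≤ 2 + 8 * K * (2 * H K) := by
    intro k hk
    have hk' := mem_Icc.mp hk
    rw [← add_sum_erase _ _ hk, add_sub_right_comm]
    refine (abs_add_le _ _).trans (add_le_add (int_diag s hs T k hk'.1) ?_)
    refine (abs_sum_le_sum_abs _ _).trans ?_
    have h1 : ∀ l ∈ (Icc 1 K).erase k, |∫ t in T..2 * T, term (s * t) k * term (s * t) l|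
        ≤ 8 * K * (1 / |(k : ℝ) - l|) := by
      intro l hl
      rw [mem_erase, mem_Icc] at hl
      have := int_off s hs T K k l hk'.1 hl.2.1 hk'.2 hl.2.2 (Ne.symm hl.1)
      rw [mul_one_div]; exact this
    refine (sum_le_sum h1).trans ?_
    rw [← mul_sum]
    exact mul_le_mul_of_nonneg_left (sum_dist K k hk) (by positivity)
  refine (sum_le_sum h).trans ?_
  rw [sum_const, Nat.card_Icc, nsmul_eq_mul, Nat.add_sub_cancel]
  have : (K : ℝ) * (2 + 8 * K * (2 * H K)) = 2 * K + 16 * K ^ 2 * H K := by ring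
  rw [this]

end Pool.Agent.Helper22.PSI
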