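import Pool.Agent.Helper22.PSI.Hilb

set_option autoImplicit false

/-!
The mean square of `Psi` over `[T, 2 T]`.
-/

namespace Pool.Agent.Helper22.PSI

open Finset Filter Topology

/-- The phase as a function of `t`. -/
noncomputable def Ph (s : ℤ) (t : ℝ) (k : ℕ) : ℝ := p0 k - Real.pi * s * t / k

lemma int_cos_eq (a η b c : ℝ) (hη : η ≠ 0) :
    ∫ t in b..c, Real.cos (a - η * t) = -((Real.sin (a - η * c) - Real.sin (a - η * b)) / η) := by
  rw [intervalIntegral.integral_comp_sub_mul _ hη, integral_cos, smul_eq_mul]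
  field_simp
  ring

lemma off_minus (s : ℤ) (hs : s = 1 ∨ s = -1) (T : ℝ) (k l : ℕ) (hk : 1 ≤ k) (hl : 1 ≤ l)
    (hkl : l ≠ k) :
    2 / Real.sqrt k * (2 / Real.sqrt l) / 2 *
      (∫ t in T..2 * T, Real.cos ((p0 k - p0 l) - (Real.pi * s * (1 / k - 1 / l)) * t))
    = 2 / (Real.pi * s) * (Real.sqrt k * Real.sqrt l *
        (Real.sin (Ph s (2 * T) k - Ph s (2 * T) l) / ((k : ℝ) - l)))
      - 2 / (Real.pi * s) * (Real.sqrt k * Real.sqrt l *
        (Real.sin (Ph s T k - Ph s T l) / ((k : ℝ) - l))) := by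
  have hkr : (0 : ℝ) < k := by exact_mod_cast hk
  have hlr : (0 : ℝ) < l := by exact_mod_cast hl
  have hsk : 0 < Real.sqrt k := Real.sqrt_pos.mpr hkr
  have hsl : 0 < Real.sqrt l := Real.sqrt_pos.mpr hlr
  have hk2 : Real.sqrt k * Real.sqrt k = k := Real.mul_self_sqrt hkr.le
  have hl2 : Real.sqrt l * Real.sqrt l = l := Real.mul_self_sqrt hlr.le
  have hd : (k : ℝ) - l ≠ 0 := by
    rw [sub_ne_zero]; exact_mod_cast hkl.symm
  have hs0 : (s : ℝ) ≠ 0 := by rcases hs with rfl | rfl <;> norm_num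
  have hpi := Real.pi_ne_zero
  have eη : Real.pi * s * (1 / (k : ℝ) - 1 / l) = -(Real.pi * s * ((k : ℝ) - l)) / (k * l) := by
    field_simp
    ring
  have hη : Real.pi * s * (1 / (k : ℝ) - 1 / l) ≠ 0 := by
    rw [eη]
    exact div_ne_zero (neg_ne_zero.mpr (mul_ne_zero (mul_ne_zero hpi hs0) hd)) (by positivity)
  rw [int_cos_eq _ _ _ _ hη]
  have a1 : ∀ t : ℝ, (p0 k - p0 l) - (Real.pi * s * (1 / (k : ℝ) - 1 / l)) * t
      = Ph s t k - Ph s t l := by
    intro t; unfold Ph; ring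
  rw [a1, a1, eη]
  generalize Real.sin (Ph s (2 * T) k - Ph s (2 * T) l) = A
  generalize Real.sin (Ph s T k - Ph s T l) = B
  have e0 : (k : ℝ) * l = (Real.sqrt k * Real.sqrt l) * (Real.sqrt k * Real.sqrt l) := by
    calc (k : ℝ) * l = (Real.sqrt k * Real.sqrt k) * (Real.sqrt l * Real.sqrt l) := by
          rw [hk2, hl2]
      _ = _ := by ring
  rw [e0]
  field_simp

lemma plus_le (s : ℤ) (hs : s = 1 ∨ s = -1) (T : ℝ) (k l : ℕ) (hk : 1 ≤ k) (hl : 1 ≤ l) :
    |2 / Real.sqrt k * (2 / Real.sqrt l) / 2 *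
      (∫ t in T..2 * T, Real.cos ((p0 k + p0 l) - (Real.pi * s * (1 / k + 1 / l)) * t))| ≤ 1 := by
  have hkr : (0 : ℝ) < k := by exact_mod_cast hk
  have hlr : (0 : ℝ) < l := by exact_mod_cast hl
  have hsk : 0 < Real.sqrt k := Real.sqrt_pos.mpr hkr
  have hsl : 0 < Real.sqrt l := Real.sqrt_pos.mpr hlr
  have hk2 : Real.sqrt k * Real.sqrt k = k := Real.mul_self_sqrt hkr.le
  have hl2 : Real.sqrt l * Real.sqrt l = l := Real.mul_self_sqrt hlr.le
  have e2 : |Real.pi * s * (1 / (k : ℝ) + 1 / l)| = Real.pi * (((k : ℝ) + l) / (k * l)) := by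
    rw [abs_mul, abs_mul, sign_ne s hs, abs_of_pos Real.pi_pos, mul_one,
      abs_of_pos (by positivity)]
    field_simp
    ring
  have hp : 0 < Real.pi * (((k : ℝ) + l) / (k * l)) := by
    have := Real.pi_pos; positivity
  have hη : Real.pi * s * (1 / (k : ℝ) + 1 / l) ≠ 0 := by
    rw [← abs_pos, e2]; exact hp
  have h := int_cos (p0 k + p0 l) _ T (2 * T) hη
  rw [e2] at h
  rw [abs_mul, abs_of_pos (by positivity : (0 : ℝ) < 2 / Real.sqrt k * (2 / Real.sqrt l) / 2)]
  refine (mul_le_mul_of_nonneg_left h (by positivity)).trans ?_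
  have e0 : (k : ℝ) * l = (Real.sqrt k * Real.sqrt l) * (Real.sqrt k * Real.sqrt l) := by
    calc (k : ℝ) * l = (Real.sqrt k * Real.sqrt k) * (Real.sqrt l * Real.sqrt l) := by
          rw [hk2, hl2]
      _ = _ := by ring
  have e : 2 / Real.sqrt k * (2 / Real.sqrt l) / 2 * (2 / (Real.pi * (((k : ℝ) + l) / (k * l))))
      = 4 * (Real.sqrt k * Real.sqrt l) / (Real.pi * ((k : ℝ) + l)) := by
    rw [e0]
    have := Real.pi_pos
    field_simp
    ring
  rw [e, div_le_one (by have := Real.pi_pos; positivity)]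
  have h1 : 2 * (Real.sqrt k * Real.sqrt l) ≤ k + l := by
    nlinarith [sq_nonneg (Real.sqrt k - Real.sqrt l)]
  nlinarith [Real.pi_gt_three]

/-- The mean square of a partial sum, with the sharp error. -/
lemma head_ms2 (s : ℤ) (hs : s = 1 ∨ s = -1) (T : ℝ) (K : ℕ) :
    |(∫ t in T..2 * T, S (s * t) K ^ 2) - 2 * T * H K| ≤ 5 * (K : ℝ) ^ 2 := by
  have hpi := Real.pi_pos
  have e1 : ∀ t : ℝ, S (s * t) K ^ 2
      = ∑ k ∈ Icc 1 K, ∑ l ∈ Icc 1 K, term (s * t) k * term (s * t) l := by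
    intro t
    rw [pow_two, S, sum_mul_sum]
  simp only [e1]
  have hint : ∀ k l : ℕ, IntervalIntegrable (fun t : ℝ => term (s * t) k * term (s * t) l)
      MeasureTheory.volume T (2 * T) := fun k l =>
    ((cont_term s k).mul (cont_term s l)).intervalIntegrable _ _
  rw [intervalIntegral.integral_finsetSum (fun k _ => by
    apply Continuous.intervalIntegrable
    exact continuous_finsetSum _ fun l _ => (cont_term s k).mul (cont_term s l))]
  have e2 : ∀ k ∈ Icc 1 K, (∫ t in T..2 * T, ∑ l ∈ Icc 1 K, term (s * t) k * term (s * t) l)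
      = ∑ l ∈ Icc 1 K, ∫ t in T..2 * T, term (s * t) k * term (s * t) l := fun k _ =>
    intervalIntegral.integral_finsetSum fun l _ => hint k l
  rw [sum_congr rfl e2]
  -- the two parts
  set M : ℕ → ℕ → ℝ := fun k l => 2 / Real.sqrt k * (2 / Real.sqrt l) / 2 *
      (∫ t in T..2 * T, Real.cos ((p0 k - p0 l) - (Real.pi * s * (1 / k - 1 / l)) * t)) with hM
  set P : ℕ → ℕ → ℝ := fun k l => 2 / Real.sqrt k * (2 / Real.sqrt l) / 2 *
      (∫ t in T..2 * T, Real.cos ((p0 k + p0 l) - (Real.pi * s * (1 / k + 1 / l)) * t)) with hP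
  have e3 : ∀ k l : ℕ, (∫ t in T..2 * T, term (s * t) k * term (s * t) l) = M k l + P k l := by
    intro k l
    simp only [term_mul]
    rw [intervalIntegral.integral_const_mul,
      intervalIntegral.integral_add (Continuous.intervalIntegrable (by fun_prop) _ _)
        (Continuous.intervalIntegrable (by fun_prop) _ _), mul_add]
  simp only [e3, sum_add_distrib]
  have e4 : ∑ k ∈ Icc 1 K, ∑ l ∈ Icc 1 K, M k l
      = 2 * T * H K + ∑ k ∈ Icc 1 K, ∑ l ∈ (Icc 1 K).erase k, M k l := by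
    have : ∀ k ∈ Icc 1 K, ∑ l ∈ Icc 1 K, M k l
        = 2 * T * (1 / k) + ∑ l ∈ (Icc 1 K).erase k, M k l := by
      intro k hk
      rw [← add_sum_erase _ _ hk]
      congr 1
      have hkr : (0 : ℝ) < k := by exact_mod_cast (mem_Icc.mp hk).1
      have hk2 : Real.sqrt k * Real.sqrt k = k := Real.mul_self_sqrt hkr.le
      rw [hM]
      simp only [sub_self, mul_zero, zero_mul, Real.cos_zero]
      rw [intervalIntegral.integral_const, smul_eq_mul, div_mul_div_comm, hk2]
      ring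
    rw [sum_congr rfl this, sum_add_distrib, H, mul_sum]
  rw [e4]
  have hsq : ∑ k ∈ Icc 1 K, Real.sqrt k ^ 2 ≤ (K : ℝ) ^ 2 := by
    have : ∀ k ∈ Icc 1 K, Real.sqrt k ^ 2 ≤ (K : ℝ) := by
      intro k hk
      rw [Real.sq_sqrt (Nat.cast_nonneg k)]
      exact_mod_cast (mem_Icc.mp hk).2
    refine (sum_le_sum this).trans ?_
    rw [sum_const, Nat.card_Icc, nsmul_eq_mul, Nat.add_sub_cancel, pow_two]
  have hoff : |∑ k ∈ Icc 1 K, ∑ l ∈ (Icc 1 K).erase k, M k l| ≤ 4 * (K : ℝ) ^ 2 := by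
    have e5 : ∑ k ∈ Icc 1 K, ∑ l ∈ (Icc 1 K).erase k, M k l
        = 2 / (Real.pi * s) * (∑ k ∈ Icc 1 K, ∑ l ∈ (Icc 1 K).erase k,
            Real.sqrt k * Real.sqrt l *
            (Real.sin (Ph s (2 * T) k - Ph s (2 * T) l) / ((k : ℝ) - l)))
          - 2 / (Real.pi * s) * (∑ k ∈ Icc 1 K, ∑ l ∈ (Icc 1 K).erase k,
            Real.sqrt k * Real.sqrt l *
            (Real.sin (Ph s T k - Ph s T l) / ((k : ℝ) - l))) := by
      rw [mul_sum, mul_sum, ← sum_sub_distrib]
      refine sum_congr rfl fun k hk => ?_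
      rw [mul_sum, mul_sum, ← sum_sub_distrib]
      refine sum_congr rfl fun l hl => ?_
      have hl' := mem_Icc.mp (mem_of_mem_erase hl)
      exact off_minus s hs T k l (mem_Icc.mp hk).1 hl'.1 (ne_of_mem_erase hl)
    rw [e5]
    have c0 : |2 / (Real.pi * (s : ℝ))| = 2 / Real.pi := by
      rw [abs_div, abs_mul, sign_ne s hs, abs_of_pos hpi, mul_one, abs_of_pos two_pos]
    have b1 := hilbert (Icc 1 K) (fun k => Real.sqrt k) (Ph s (2 * T))
    have b2 := hilbert (Icc 1 K) (fun k => Real.sqrt k) (Ph s T)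
    have q : ∀ z : ℝ, |z| ≤ Real.pi * ∑ k ∈ Icc 1 K, Real.sqrt k ^ 2 →
        |2 / (Real.pi * (s : ℝ)) * z| ≤ 2 * (K : ℝ) ^ 2 := by
      intro z hz
      rw [abs_mul, c0]
      calc 2 / Real.pi * |z| ≤ 2 / Real.pi * (Real.pi * (K : ℝ) ^ 2) := by
            refine mul_le_mul_of_nonneg_left (hz.trans ?_) (by positivity)
            exact mul_le_mul_of_nonneg_left hsq hpi.le
        _ = 2 * (K : ℝ) ^ 2 := by field_simp
    refine (abs_sub _ _).trans ?_
    linarith [q _ b1, q _ b2]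
  have hplus : |∑ k ∈ Icc 1 K, ∑ l ∈ Icc 1 K, P k l| ≤ (K : ℝ) ^ 2 := by
    refine (abs_sum_le_sum_abs _ _).trans ?_
    have h : ∀ k ∈ Icc 1 K, |∑ l ∈ Icc 1 K, P k l| ≤ K := by
      intro k hk
      refine (abs_sum_le_sum_abs _ _).trans ?_
      have h1 : ∀ l ∈ Icc 1 K, |P k l| ≤ 1 := fun l hl =>
        plus_le s hs T k l (mem_Icc.mp hk).1 (mem_Icc.mp hl).1
      refine (sum_le_sum h1).trans ?_
      rw [sum_const, Nat.card_Icc, nsmul_eq_mul, Nat.add_sub_cancel, mul_one]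
    refine (sum_le_sum h).trans ?_
    rw [sum_const, Nat.card_Icc, nsmul_eq_mul, Nat.add_sub_cancel, pow_two]
  have e6 : 2 * T * H K + ∑ k ∈ Icc 1 K, ∑ l ∈ (Icc 1 K).erase k, M k l
      + ∑ k ∈ Icc 1 K, ∑ l ∈ Icc 1 K, P k l - 2 * T * H K
      = ∑ k ∈ Icc 1 K, ∑ l ∈ (Icc 1 K).erase k, M k l
      + ∑ k ∈ Icc 1 K, ∑ l ∈ Icc 1 K, P k l := by ring
  rw [e6]
  refine (abs_add_le _ _).trans ?_
  linarith

/-- The mean square of `Psi`. -/
theorem mean_square (s : ℤ) (hs : s = 1 ∨ s = -1) (T : ℝ) (hT : 1 ≤ T) :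
    |(∫ t in T..2 * T, Psi (s * t) ^ 2) - T * Real.log T| ≤ 600 * T := by
  have hT0 : 0 < T := by linarith
  set r := Real.sqrt T with hr
  have hr1 : 1 ≤ r := Real.one_le_sqrt.mpr hT
  have hr2 : r ^ 2 = T := Real.sq_sqrt hT0.le
  obtain ⟨K, hK⟩ : ∃ K : ℕ, K = ⌈3 * r⌉₊ := ⟨_, rfl⟩
  have hK1 : 3 * r ≤ K := by rw [hK]; exact Nat.le_ceil _
  have hK2 : (K : ℝ) ≤ 4 * r := by
    have := Nat.ceil_lt_add_one (by positivity : (0 : ℝ) ≤ 3 * r)
    rw [← hK] at this; linarith
  have hK3 : (3 : ℝ) ≤ K := by linarith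
  have hK4 : 1 ≤ K := by
    have : (1 : ℝ) ≤ K := by linarith
    exact_mod_cast this
  have hKsq : 9 * T ≤ (K : ℝ) ^ 2 := by rw [← hr2]; nlinarith
  have hKsq2 : (K : ℝ) ^ 2 ≤ 16 * T := by rw [← hr2]; nlinarith
  -- the logarithm
  have hlogT : Real.log T = 2 * Real.log r := by
    rw [← hr2, Real.log_pow]; norm_num
  have hlog1 : Real.log r ≤ Real.log (K + 1) := Real.log_le_log (by linarith) (by linarith)
  have hlog4 : Real.log 4 ≤ 3 / 2 := by
    have : Real.log 4 = 2 * Real.log 2 := by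
      rw [show (4 : ℝ) = 2 ^ 2 by norm_num, Real.log_pow]; norm_num
    rw [this]; linarith [Real.log_two_lt_d9]
  have hlog2 : Real.log K ≤ 3 / 2 + Real.log r := by
    have h1 : Real.log K ≤ Real.log (4 * r) := Real.log_le_log (by linarith) hK2
    rw [Real.log_mul (by norm_num) (by linarith)] at h1
    linarith
  have hHl : Real.log r ≤ H K := hlog1.trans (le_H K)
  have hHu : H K ≤ 5 / 2 + Real.log r := (H_le K).trans (by linarith)
  have hlr : 0 ≤ Real.log r := Real.log_nonneg hr1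
  have hms := head_ms2 s hs T K
  -- the remainder
  set δ : ℝ := 8 / Real.sqrt K with hδ
  set q := Real.sqrt (K : ℝ) with hq
  have hq1 : 1 ≤ q := Real.one_le_sqrt.mpr (by linarith)
  have hq2 : q ^ 2 = K := Real.sq_sqrt (by linarith)
  have hδ0 : 0 ≤ δ := by positivity
  have hq3 : 8 / 5 ≤ q := by nlinarith
  have hδ5 : δ ≤ 5 := by
    rw [hδ, div_le_iff₀ (by linarith)]; linarith
  have hδq : δ * q = 8 := by rw [hδ]; field_simp
  have hlogK : Real.log K ≤ 2 * q - 2 := by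
    have h1 : Real.log K = 2 * Real.log q := by rw [← hq2, Real.log_pow]; norm_num
    have h2 := Real.log_le_sub_one_of_pos (by linarith : 0 < q)
    linarith
  have hS0 : 0 ≤ ∫ t in T..2 * T, S (s * t) K ^ 2 :=
    intervalIntegral.integral_nonneg (by linarith) fun t _ => sq_nonneg _
  have hcS : Continuous fun t : ℝ => S (s * t) K :=
    (continuous_S K).comp (continuous_const.mul continuous_id)
  have hcP : Continuous fun t : ℝ => Psi (s * t) :=
    continuous_Psi.comp (continuous_const.mul continuous_id)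
  have hR : ∀ t ∈ Set.Icc T (2 * T), |Psi (s * t) - S (s * t) K| ≤ δ := by
    intro t ht
    refine Psi_sub _ _ ?_ hK4
    rw [abs_mul, sign_ne s hs, one_mul, abs_of_nonneg (by linarith [ht.1])]
    linarith [ht.2]
  have hdiff : |(∫ t in T..2 * T, Psi (s * t) ^ 2) - ∫ t in T..2 * T, S (s * t) K ^ 2|
      ≤ ∫ t in T..2 * T, (δ * S (s * t) K ^ 2 + (δ + δ ^ 2)) := by
    have hsub := intervalIntegral.integral_sub (μ := MeasureTheory.volume) (a := T) (b := 2 * T)
      (f := fun t : ℝ => Psi (s * t) ^ 2) (g := fun t : ℝ => S (s * t) K ^ 2)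
      (Continuous.intervalIntegrable (by fun_prop) _ _)
      (Continuous.intervalIntegrable (by fun_prop) _ _)
    rw [← hsub]
    refine (intervalIntegral.abs_integral_le_integral_abs (by linarith)).trans ?_
    refine intervalIntegral.integral_mono_on (by linarith)
      (Continuous.intervalIntegrable (by fun_prop) _ _)
      (Continuous.intervalIntegrable (by fun_prop) _ _) ?_
    intro t ht
    have h := hR t ht
    generalize Psi (s * t) = p at *
    generalize S (s * t) K = u at *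
    have e : p ^ 2 - u ^ 2 = (p - u) * (2 * u) + (p - u) ^ 2 := by ring
    rw [e]
    have h2 : |(p - u) * (2 * u)| ≤ δ * (u ^ 2 + 1) := by
      rw [abs_mul]
      refine mul_le_mul h ?_ (abs_nonneg _) hδ0
      rw [abs_le]
      constructor <;> nlinarith [sq_nonneg (u - 1), sq_nonneg (u + 1)]
    have h3 : |(p - u) ^ 2| ≤ δ ^ 2 := by
      rw [abs_pow]
      exact pow_le_pow_left₀ (abs_nonneg _) h 2
    refine (abs_add_le _ _).trans ?_
    linarith
  rw [intervalIntegral.integral_add (Continuous.intervalIntegrable (by fun_prop) _ _)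
    intervalIntegrable_const, intervalIntegral.integral_const_mul,
    intervalIntegral.integral_const, smul_eq_mul] at hdiff
  set I := ∫ t in T..2 * T, S (s * t) K ^ 2 with hI
  rw [abs_le] at hms
  have hIu : I ≤ 2 * T * H K + 80 * T := by linarith [hms.2]
  have hδH : δ * H K ≤ 16 := by
    have h1 : H K ≤ 2 * q := by linarith [H_le K]
    calc δ * H K ≤ δ * (2 * q) := mul_le_mul_of_nonneg_left h1 hδ0
      _ = 2 * (δ * q) := by ring
      _ = 16 := by rw [hδq]; norm_num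
  have hδI : δ * I ≤ 32 * T + 400 * T := by
    calc δ * I ≤ δ * (2 * T * H K + 80 * T) := mul_le_mul_of_nonneg_left hIu hδ0
      _ = 2 * T * (δ * H K) + 80 * T * δ := by ring
      _ ≤ 2 * T * 16 + 80 * T * 5 := by
          refine add_le_add (mul_le_mul_of_nonneg_left hδH (by positivity))
            (mul_le_mul_of_nonneg_left hδ5 (by positivity))
      _ = _ := by ring
  have hδ2 : δ + δ ^ 2 ≤ 30 := by
    have h1 : δ ^ 2 ≤ 5 ^ 2 := pow_le_pow_left₀ hδ0 hδ5 2
    linarith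
  have hmain : |2 * T * H K - T * Real.log T| ≤ 5 * T := by
    have e : 2 * T * H K - T * Real.log T = 2 * T * (H K - Real.log r) := by
      rw [hlogT]; ring
    rw [e, abs_of_nonneg (mul_nonneg (by positivity) (by linarith))]
    calc 2 * T * (H K - Real.log r) ≤ 2 * T * (5 / 2) :=
          mul_le_mul_of_nonneg_left (by linarith) (by positivity)
      _ = 5 * T := by ring
  rw [abs_le] at hdiff hmain ⊢
  have h30 : (2 * T - T) * (δ + δ ^ 2) ≤ 30 * T := by
    calc (2 * T - T) * (δ + δ ^ 2) = T * (δ + δ ^ 2) := by ring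
      _ ≤ T * 30 := mul_le_mul_of_nonneg_left hδ2 hT0.le
      _ = 30 * T := by ring
  constructor
  · linarith [hdiff.1, hmain.1, hms.1]
  · linarith [hdiff.2, hmain.2, hms.2]

end Pool.Agent.Helper22.PSI
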