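import Pool.Agent.Helper22.PSI.Supply

set_option autoImplicit false

/-!
The Omega result for `Psi`.
-/

namespace Pool.Agent.Helper22.PSI

open Finset Filter Topology

lemma exists_good_j (ε T : ℝ) (hε : 0 < ε) :
    ∃ J : ℕ, 1 ≤ J ∧ ∀ j : ℕ, J ≤ j →
      (j : ℝ) ^ 4 * ((2 : ℝ) ^ (-ε)) ^ j ≤ 1 / 24 ∧ 12 * (j : ℝ) ^ 3 ≤ (Real.sqrt 2) ^ j ∧
      T ≤ (2 : ℝ) ^ j := by
  have hr0 : (0 : ℝ) < (2 : ℝ) ^ (-ε) := Real.rpow_pos_of_pos (by norm_num) _
  have hr1 : (2 : ℝ) ^ (-ε) < 1 := Real.rpow_lt_one_of_one_lt_of_neg (by norm_num) (by linarith)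
  have h1 : Tendsto (fun n : ℕ => (n : ℝ) ^ 4 * ((2 : ℝ) ^ (-ε)) ^ n) atTop (𝓝 0) :=
    tendsto_pow_const_mul_const_pow_of_abs_lt_one 4 (by rw [abs_of_pos hr0]; exact hr1)
  have hs1 : (1 : ℝ) < Real.sqrt 2 := by
    rw [Real.lt_sqrt (by norm_num)]; norm_num
  have hs0 : (0 : ℝ) < Real.sqrt 2 := by linarith
  have h2 : Tendsto (fun n : ℕ => (n : ℝ) ^ 3 * ((Real.sqrt 2)⁻¹) ^ n) atTop (𝓝 0) := by
    apply tendsto_pow_const_mul_const_pow_of_abs_lt_one
    rw [abs_of_pos (inv_pos.mpr hs0)]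
    exact inv_lt_one_of_one_lt₀ hs1
  have h3 : Tendsto (fun n : ℕ => (2 : ℝ) ^ n) atTop atTop :=
    tendsto_pow_atTop_atTop_of_one_lt (by norm_num)
  have e1 := h1.eventually (gt_mem_nhds (by norm_num : (0 : ℝ) < 1 / 24))
  have e2 := h2.eventually (gt_mem_nhds (by norm_num : (0 : ℝ) < 1 / 12))
  have e3 := h3.eventually_ge_atTop T
  obtain ⟨J, hJ⟩ := eventually_atTop.mp (e1.and (e2.and e3))
  refine ⟨max J 1, le_max_right _ _, fun j hj => ?_⟩
  obtain ⟨a1, a2, a3⟩ := hJ j ((le_max_left _ _).trans hj)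
  refine ⟨a1.le, ?_, a3⟩
  rw [inv_pow, ← div_eq_mul_inv, div_lt_iff₀ (by positivity)] at a2
  linarith

lemma core (a : ℕ) (ha : a = 3 ∨ a = 7) (ε T : ℝ) (hε : 0 < ε) :
    ∃ P : ℕ, 1 ≤ P ∧ T ≤ 2 * (P : ℝ) ^ 4 ∧ ∀ t : ℝ, 2 * (P : ℝ) ^ 4 ≤ t → t ≤ 4 * (P : ℝ) ^ 4 →
      Real.exp ((Real.log t) ^ (1 / 2 - ε)) ≤ sg a * DD P - 24 := by
  set ε' := min ε (1 / 4) with hε'
  have hε'0 : 0 < ε' := lt_min hε (by norm_num)
  have hε'1 : ε' ≤ 1 / 4 := min_le_right _ _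
  have hε'2 : ε' ≤ ε := min_le_left _ _
  obtain ⟨J, hJ1, hJ⟩ := exists_good_j ε' (max T 3) hε'0
  obtain ⟨j, hj, hcard⟩ := supply a ha J
  obtain ⟨g1, g2, g3⟩ := hJ j hj
  have hj1 : (1 : ℝ) ≤ j := by exact_mod_cast hJ1.trans hj
  set A := blk a j with hA
  have hAm : ∀ p ∈ A, p.Prime ∧ p % 8 = a ∧ 2 ^ j ≤ p ∧ p ≤ 2 ^ (j + 1) := by
    intro p hp
    rw [hA, blk, mem_filter, mem_Ico] at hp
    exact ⟨hp.2.1, hp.2.2, hp.1.1, hp.1.2.le⟩
  set R := (Real.sqrt 2) ^ j with hR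
  have hR2 : R ^ 2 = 2 ^ j := by
    rw [hR, ← pow_mul, mul_comm, pow_mul, Real.sq_sqrt (by norm_num)]
  have hR0 : 0 < R := by rw [hR]; positivity
  have hjp : (0 : ℝ) < (j : ℝ) ^ 3 := by positivity
  set n := (A.card : ℝ) with hn
  have hn1 : R ^ 2 / (j : ℝ) ^ 3 ≤ n := by
    rw [div_le_iff₀ hjp, hR2]; linarith
  have hn2 : n ≤ 2 ^ j := by
    have : A.card ≤ 2 ^ j := by
      rw [hA, blk]
      refine (card_filter_le _ _).trans ?_
      rw [Nat.card_Ico, pow_succ]; omega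
    rw [hn]; exact_mod_cast this
  have hnpos : 0 < n := lt_of_lt_of_le (by positivity) hn1
  set P := ∏ p ∈ A, p with hP
  have hPpos : 1 ≤ P := Nat.one_le_iff_ne_zero.mpr (prod_ne_zero_iff.mpr fun p hp => (hAm p hp).1.ne_zero)
  have hPr : (1 : ℝ) ≤ P := by exact_mod_cast hPpos
  have hPge : (2 : ℝ) ^ j ≤ P := by
    have hne : A.Nonempty := by
      rw [← card_pos]; rw [hn] at hnpos; exact_mod_cast hnpos
    obtain ⟨p, hp⟩ := hne
    have h1 : p ≤ P := Nat.le_of_dvd hPpos (dvd_prod_of_mem _ hp)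
    exact_mod_cast (hAm p hp).2.2.1.trans h1
  have hP4 : (P : ℝ) ≤ 2 * (P : ℝ) ^ 4 := by
    have h2 : (P : ℝ) ≤ (P : ℝ) ^ 4 := le_self_pow₀ hPr (by norm_num)
    linarith
  have hlogP : Real.log P ≤ 2 ^ j * (j + 1) := by
    rw [hP, Nat.cast_prod, Real.log_prod (fun p hp => by
      exact_mod_cast (hAm p hp).1.ne_zero)]
    have h1 : ∀ p ∈ A, Real.log (p : ℝ) ≤ (j : ℝ) + 1 := by
      intro p hp
      have hp0 : (0 : ℝ) < p := by exact_mod_cast (hAm p hp).1.pos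
      have hp2 : (p : ℝ) ≤ 2 ^ (j + 1) := by exact_mod_cast (hAm p hp).2.2.2
      calc Real.log p ≤ Real.log (2 ^ (j + 1)) := Real.log_le_log hp0 hp2
        _ = (j + 1) * Real.log 2 := by rw [Real.log_pow]; push_cast; ring
        _ ≤ (j + 1) * 1 := by
            refine mul_le_mul_of_nonneg_left ?_ (by linarith)
            linarith [Real.log_two_lt_d9]
        _ = j + 1 := mul_one _
    refine (sum_le_sum h1).trans ?_
    rw [sum_const, nsmul_eq_mul]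
    exact mul_le_mul_of_nonneg_right hn2 (by linarith)
  have hX : R / (3 * (j : ℝ) ^ 3) ≤ ∑ p ∈ A, (1 / Real.sqrt p) / 2 := by
    have h1 : ∀ p ∈ A, 1 / (3 * R) ≤ (1 / Real.sqrt (p : ℝ)) / 2 := by
      intro p hp
      have hp0 : (0 : ℝ) < p := by exact_mod_cast (hAm p hp).1.pos
      have hp2 : (p : ℝ) ≤ 2 ^ (j + 1) := by exact_mod_cast (hAm p hp).2.2.2
      have h2 : Real.sqrt p ≤ 3 / 2 * R := by
        rw [Real.sqrt_le_left (by positivity)]
        rw [mul_pow, hR2]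
        rw [pow_succ] at hp2
        have : (0 : ℝ) < 2 ^ j := by positivity
        nlinarith
      have h3 : 0 < Real.sqrt p := Real.sqrt_pos.mpr hp0
      rw [div_div, one_div, one_div]
      exact inv_anti₀ (by positivity) (by linarith)
    have h2 := sum_le_sum h1
    rw [sum_const, nsmul_eq_mul] at h2
    refine le_trans ?_ h2
    calc R / (3 * (j : ℝ) ^ 3) = R ^ 2 / (j : ℝ) ^ 3 * (1 / (3 * R)) := by
          field_simp
      _ ≤ n * (1 / (3 * R)) := mul_le_mul_of_nonneg_right hn1 (by positivity)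
  have hDD := DD_lower a ha A (fun p hp => (hAm p hp).1) (fun p hp => (hAm p hp).2.1)
  refine ⟨P, hPpos, ?_, ?_⟩
  · exact ((le_max_left T 3).trans (g3.trans (hPge.trans hP4)))
  · intro t ht1 ht2
    have ht3 : 3 ≤ t := (le_max_right T 3).trans (g3.trans (hPge.trans (hP4.trans ht1)))
    have hlog1 : 1 ≤ Real.log t := by
      rw [Real.le_log_iff_exp_le (by linarith)]
      exact Real.exp_one_lt_three.le.trans ht3
    have hlogt : Real.log t ≤ 16 * j * 2 ^ j := by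
      have h1 : Real.log t ≤ Real.log (4 * (P : ℝ) ^ 4) := Real.log_le_log (by linarith) ht2
      have h2 : Real.log (4 * (P : ℝ) ^ 4) = Real.log 4 + 4 * Real.log P := by
        rw [Real.log_mul (by norm_num) (by positivity), Real.log_pow]; push_cast; ring
      have h3 : Real.log 4 ≤ 3 := by
        have := Real.log_le_sub_one_of_pos (by norm_num : (0 : ℝ) < 4)
        linarith
      have h4 : (1 : ℝ) ≤ 2 ^ j := one_le_pow₀ (by norm_num)
      nlinarith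
    have hexp1 : (Real.log t) ^ (1 / 2 - ε) ≤ (16 * j * 2 ^ j : ℝ) ^ (1 / 2 - ε') := by
      calc (Real.log t) ^ (1 / 2 - ε) ≤ (Real.log t) ^ (1 / 2 - ε') :=
            Real.rpow_le_rpow_of_exponent_le hlog1 (by linarith)
        _ ≤ _ := Real.rpow_le_rpow (by linarith) hlogt (by linarith)
    have hexp2 : (16 * j * 2 ^ j : ℝ) ^ (1 / 2 - ε') ≤ 4 * j * (R * ((2 : ℝ) ^ (-ε')) ^ j) := by
      rw [Real.mul_rpow (by positivity) (by positivity)]
      have h1 : (16 * j : ℝ) ^ (1 / 2 - ε') ≤ 4 * j := by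
        calc (16 * j : ℝ) ^ (1 / 2 - ε') ≤ (16 * j : ℝ) ^ (1 / 2 : ℝ) :=
              Real.rpow_le_rpow_of_exponent_le (by linarith) (by linarith)
          _ = Real.sqrt (16 * j) := by rw [Real.sqrt_eq_rpow]
          _ ≤ 4 * j := by
              rw [Real.sqrt_le_left (by positivity)]
              nlinarith
      have h2 : ((2 : ℝ) ^ j) ^ (1 / 2 - ε') = R * ((2 : ℝ) ^ (-ε')) ^ j := by
        rw [sub_eq_add_neg, Real.rpow_add (by positivity)]
        congr 1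
        · rw [← hR2, ← Real.sqrt_eq_rpow, Real.sqrt_sq hR0.le]
        · rw [← Real.rpow_natCast 2 j, ← Real.rpow_mul (by norm_num), mul_comm,
            Real.rpow_mul (by norm_num), Real.rpow_natCast]
      rw [h2]
      exact mul_le_mul_of_nonneg_right h1 (by positivity)
    set rj := ((2 : ℝ) ^ (-ε')) ^ j with hrj
    have hrj0 : 0 ≤ rj := by positivity
    have h5 : 4 * j * (R * rj) + 1 ≤ R / (3 * (j : ℝ) ^ 3) := by
      have h6 : 4 * j * (R * rj) ≤ R / (6 * (j : ℝ) ^ 3) := by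
        rw [le_div_iff₀ (by positivity)]
        calc 4 * j * (R * rj) * (6 * (j : ℝ) ^ 3) = 24 * R * ((j : ℝ) ^ 4 * rj) := by ring
          _ ≤ 24 * R * (1 / 24) := mul_le_mul_of_nonneg_left g1 (by positivity)
          _ = R := by ring
      have h7 : 1 ≤ R / (6 * (j : ℝ) ^ 3) := by
        rw [le_div_iff₀ (by positivity)]; linarith
      have h8 : R / (3 * (j : ℝ) ^ 3) = R / (6 * (j : ℝ) ^ 3) + R / (6 * (j : ℝ) ^ 3) := by
        field_simp; ring
      rw [h8]; linarith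
    have h4X : 4 ≤ R / (3 * (j : ℝ) ^ 3) := by
      rw [le_div_iff₀ (by positivity)]; linarith
    set X := R / (3 * (j : ℝ) ^ 3) with hXdef
    have h9 : Real.exp X ≤ Real.exp (∑ p ∈ A, (1 / Real.sqrt (p : ℝ)) / 2) := Real.exp_le_exp.mpr hX
    have h10 : Real.exp ((Real.log t) ^ (1 / 2 - ε)) ≤ Real.exp (X - 1) :=
      Real.exp_le_exp.mpr (by linarith)
    have h11 : Real.exp X = Real.exp (X - 1) * Real.exp 1 := by
      rw [← Real.exp_add]; congr 1; ring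
    have h12 : 2.7 ≤ Real.exp 1 := by linarith [Real.exp_one_gt_d9]
    have h13 : Real.exp 3 ≤ Real.exp (X - 1) := Real.exp_le_exp.mpr (by linarith)
    have h14 : (19 : ℝ) ≤ Real.exp 3 := by
      have : Real.exp 3 = Real.exp 1 ^ 3 := by rw [← Real.exp_nat_mul]; norm_num
      rw [this]
      have h15 : (2.7 : ℝ) ^ 3 ≤ Real.exp 1 ^ 3 := pow_le_pow_left₀ (by norm_num) h12 3
      norm_num at h15 ⊢
      linarith
    have h16 : Real.exp (X - 1) * 2.7 ≤ Real.exp (X - 1) * Real.exp 1 :=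
      mul_le_mul_of_nonneg_left h12 (Real.exp_pos _).le
    linarith

/-- Large positive and negative values. -/
theorem omega (s : ℤ) (hs : s = 1 ∨ s = -1) (ε T : ℝ) (hε : 0 < ε) :
    (∃ t : ℝ, T ≤ t ∧ Real.exp ((Real.log t) ^ (1 / 2 - ε)) ≤ Psi (s * t)) ∧
    (∃ t : ℝ, T ≤ t ∧ Psi (s * t) ≤ -Real.exp ((Real.log t) ^ (1 / 2 - ε))) := by
  constructor
  · obtain ⟨P, hP1, hPT, h⟩ := core 3 (Or.inl rfl) ε T hε
    obtain ⟨⟨t, h1, h2, h3⟩, _⟩ := avg_Psi s hs P hP1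
    refine ⟨t, hPT.trans h1, ?_⟩
    have h4 := h t h1 h2
    rw [sg, if_pos rfl, one_mul] at h4
    linarith
  · obtain ⟨P, hP1, hPT, h⟩ := core 7 (Or.inr rfl) ε T hε
    obtain ⟨_, ⟨t, h1, h2, h3⟩⟩ := avg_Psi s hs P hP1
    refine ⟨t, hPT.trans h1, ?_⟩
    have h4 := h t h1 h2
    rw [sg, if_neg (by norm_num)] at h4
    linarith

end Pool.Agent.Helper22.PSI
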