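import Pool.Agent.Helper22.PSI.Div

set_option autoImplicit false

/-!
Dyadic intervals with many primes in a residue class modulo 8, from the divergence of the sum of
`log p / p`.
-/

namespace Pool.Agent.Helper22.PSI

open Finset Filter Topology

/-- The primes of the class `a` in the dyadic interval. -/
noncomputable def blk (a j : ℕ) : Finset ℕ :=
  (Ico (2 ^ j) (2 ^ (j + 1))).filter fun p => p.Prime ∧ p % 8 = a

lemma isUnit_cast (a : ℕ) (ha : a = 3 ∨ a = 7) : IsUnit (a : ZMod 8) := by
  rw [ZMod.isUnit_iff_coprime]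
  rcases ha with rfl | rfl <;> decide

lemma supply (a : ℕ) (ha : a = 3 ∨ a = 7) (J : ℕ) :
    ∃ j : ℕ, J ≤ j ∧ (2 : ℝ) ^ j ≤ (j : ℝ) ^ 3 * (blk a j).card := by
  by_contra hcon
  push Not at hcon
  have ha8 : a % 8 = a := by rcases ha with rfl | rfl <;> norm_num
  apply ArithmeticFunction.vonMangoldt.not_summable_residueClass_prime_div (isUnit_cast a ha)
  set f : ℕ → ℝ := fun n : ℕ =>
    (if n.Prime then ArithmeticFunction.vonMangoldt.residueClass (a : ZMod 8) n else 0) / n with hf
  have hf0 : ∀ n, 0 ≤ f n := by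
    intro n
    rw [hf]; dsimp only
    split_ifs
    · exact div_nonneg (ArithmeticFunction.vonMangoldt.residueClass_nonneg _ n) (Nat.cast_nonneg n)
    · simp
  set J' := max J 1 with hJ'
  have hblock : ∀ j, J' ≤ j → ∑ n ∈ Ico (2 ^ j) (2 ^ (j + 1)), f n ≤ 2 / (j : ℝ) ^ 2 := by
    intro j hj
    have hj1 : 1 ≤ j := (le_max_right J 1).trans hj
    have hjr : (1 : ℝ) ≤ j := by exact_mod_cast hj1
    have h1 : ∀ n ∈ Ico (2 ^ j) (2 ^ (j + 1)), f n
        ≤ if n.Prime ∧ n % 8 = a then ((j : ℝ) + 1) / 2 ^ j else 0 := by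
      intro n hn
      rw [mem_Ico] at hn
      have hn1 : (2 : ℝ) ^ j ≤ n := by exact_mod_cast hn.1
      have hn2 : (n : ℝ) ≤ 2 ^ (j + 1) := by exact_mod_cast hn.2.le
      have hpos : (0 : ℝ) < 2 ^ j := by positivity
      rw [hf]; dsimp only
      by_cases hp : n.Prime
      · rw [if_pos hp]
        by_cases hm : n % 8 = a
        · rw [if_pos ⟨hp, hm⟩]
          have hv : ArithmeticFunction.vonMangoldt.residueClass (a : ZMod 8) n ≤ (j : ℝ) + 1 := by
            refine (ArithmeticFunction.vonMangoldt.residueClass_le _ n).trans ?_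
            rw [ArithmeticFunction.vonMangoldt_apply_prime hp]
            calc Real.log n ≤ Real.log (2 ^ (j + 1)) :=
                  Real.log_le_log (by linarith) hn2
              _ = (j + 1) * Real.log 2 := by rw [Real.log_pow]; push_cast; ring
              _ ≤ (j + 1) * 1 := by
                  refine mul_le_mul_of_nonneg_left ?_ (by linarith)
                  linarith [Real.log_two_lt_d9]
              _ = j + 1 := mul_one _
          have h0 : 0 ≤ ArithmeticFunction.vonMangoldt.residueClass (a : ZMod 8) n :=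
            ArithmeticFunction.vonMangoldt.residueClass_nonneg _ n
          exact div_le_div₀ (by linarith) hv hpos hn1
        · rw [if_neg (by tauto)]
          have : ArithmeticFunction.vonMangoldt.residueClass (a : ZMod 8) n = 0 := by
            apply Set.indicator_of_notMem
            intro h
            apply hm
            have h2 : ((n : ZMod 8)) = (a : ZMod 8) := h
            rw [ZMod.natCast_eq_natCast_iff'] at h2
            rw [h2, ha8]
          rw [this]; simp
      · rw [if_neg hp, if_neg (by tauto)]; simp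
    refine (sum_le_sum h1).trans ?_
    rw [← sum_filter, sum_const, nsmul_eq_mul]
    have h2 := hcon j ((le_max_left J 1).trans hj)
    have h3 : (0 : ℝ) < (j : ℝ) ^ 3 := by positivity
    have h4 : ((blk a j).card : ℝ) ≤ 2 ^ j / (j : ℝ) ^ 3 := by
      rw [le_div_iff₀ h3]; linarith
    have h5 : (0 : ℝ) < 2 ^ j := by positivity
    calc (((Ico (2 ^ j) (2 ^ (j + 1))).filter fun p => p.Prime ∧ p % 8 = a).card : ℝ)
          * (((j : ℝ) + 1) / 2 ^ j)
        ≤ 2 ^ j / (j : ℝ) ^ 3 * (((j : ℝ) + 1) / 2 ^ j) :=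
          mul_le_mul_of_nonneg_right h4 (by positivity)
      _ = ((j : ℝ) + 1) / (j : ℝ) ^ 3 := by field_simp
      _ ≤ 2 / (j : ℝ) ^ 2 := by
          rw [div_le_div_iff₀ h3 (by positivity)]
          have : (0 : ℝ) ≤ (j : ℝ) ^ 2 := by positivity
          nlinarith
  have hg : Summable fun j : ℕ => 2 / (j : ℝ) ^ 2 := by
    have := (Real.summable_nat_pow_inv (p := 2)).mpr (by norm_num)
    exact (this.mul_left 2).congr fun j => by rw [div_eq_mul_inv]
  have hg0 : ∀ j : ℕ, 0 ≤ 2 / (j : ℝ) ^ 2 := fun j => by positivity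
  have hind : ∀ m : ℕ, ∑ n ∈ range (2 ^ (J' + m)), f n
      ≤ ∑ n ∈ range (2 ^ J'), f n + ∑ i ∈ range m, 2 / ((J' + i : ℕ) : ℝ) ^ 2 := by
    intro m
    induction m with
    | zero => simp
    | succ m ih =>
      have hsplit : ∑ n ∈ range (2 ^ (J' + (m + 1))), f n
          = ∑ n ∈ range (2 ^ (J' + m)), f n + ∑ n ∈ Ico (2 ^ (J' + m)) (2 ^ (J' + m + 1)), f n := by
        rw [← add_assoc]
        rw [Finset.sum_range_add_sum_Ico _ (Nat.pow_le_pow_right (by norm_num) (by omega))]
      rw [hsplit, sum_range_succ]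
      have := hblock (J' + m) (by omega)
      linarith
  have hgs : ∀ m : ℕ, ∑ i ∈ range m, 2 / ((J' + i : ℕ) : ℝ) ^ 2 ≤ ∑' j : ℕ, 2 / (j : ℝ) ^ 2 := by
    intro m
    have e : ∑ i ∈ range m, 2 / ((J' + i : ℕ) : ℝ) ^ 2
        = ∑ i ∈ (range m).map (addLeftEmbedding J'), 2 / ((i : ℕ) : ℝ) ^ 2 := by
      rw [sum_map]; rfl
    rw [e]
    exact hg.sum_le_tsum _ fun j _ => hg0 j
  refine summable_of_sum_range_le hf0 (c := ∑ n ∈ range (2 ^ J'), f n + ∑' j : ℕ, 2 / (j : ℝ) ^ 2) ?_
  intro n
  have h1 : n ≤ 2 ^ (J' + n) := by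
    have := Nat.lt_two_pow_self (n := n)
    have h2 : 2 ^ n ≤ 2 ^ (J' + n) := Nat.pow_le_pow_right (by norm_num) (by omega)
    omega
  calc ∑ i ∈ range n, f i ≤ ∑ i ∈ range (2 ^ (J' + n)), f i :=
        sum_le_sum_of_subset_of_nonneg (range_subset_range.mpr h1) fun i _ _ => hf0 i
    _ ≤ _ := (hind n).trans (by linarith [hgs n])

end Pool.Agent.Helper22.PSI
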