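import Mathlib

set_option autoImplicit false

/-!
The function `Psi` of MP_237b58_an: the terms, the tail bound, convergence, continuity.
-/

namespace Pool.Agent.Helper22.PSI

open Finset Filter Topology

/-- The phase. -/
noncomputable def ph (t : ℝ) (k : ℕ) : ℝ := Real.pi * ((3 * k - 1) / 4 - t / k)

/-- The complex term without its weight. -/
noncomputable def zz (t : ℝ) (k : ℕ) : ℂ := Complex.exp (Complex.I * (ph t k : ℂ))

/-- The term of index `k`. -/
noncomputable def term (t : ℝ) (k : ℕ) : ℝ :=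
  2 / Real.sqrt k * Real.cos (Real.pi * ((3 * k - 1) / 4 - t / k))

/-- The partial sum over `1 ≤ k ≤ N`. -/
noncomputable def S (t : ℝ) (N : ℕ) : ℝ := ∑ k ∈ Icc 1 N, term t k

lemma zz_re (t : ℝ) (k : ℕ) : (zz t k).re = Real.cos (ph t k) := by
  rw [zz, mul_comm, Complex.exp_ofReal_mul_I_re]

lemma norm_zz (t : ℝ) (k : ℕ) : ‖zz t k‖ = 1 := by
  rw [zz, mul_comm]; exact Complex.norm_exp_ofReal_mul_I _

lemma term_eq (t : ℝ) (k : ℕ) : term t k = (((2 / Real.sqrt k : ℝ) : ℂ) * zz t k).re := by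
  rw [Complex.re_ofReal_mul, zz_re, term, ph]

lemma abel (u z : ℕ → ℂ) (n : ℕ) :
    ∑ i ∈ range (n + 1), u i * (z i - z (i + 1))
      = u 0 * z 0 + ∑ i ∈ range n, (u (i + 1) - u i) * z (i + 1) - u n * z (n + 1) := by
  induction n with
  | zero => simp; ring
  | succ n ih =>
    rw [sum_range_succ, ih, sum_range_succ (fun i => (u (i + 1) - u i) * z (i + 1)) n]
    ring

lemma abel_bound (u z : ℕ → ℂ) (hz : ∀ i, ‖z i‖ ≤ 1) (n : ℕ) :
    ‖∑ i ∈ range (n + 1), u i * (z i - z (i + 1))‖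
      ≤ ‖u 0‖ + ∑ i ∈ range n, ‖u (i + 1) - u i‖ + ‖u n‖ := by
  rw [abel]
  refine (norm_sub_le _ _).trans (add_le_add ((norm_add_le _ _).trans (add_le_add ?_ ?_)) ?_)
  · rw [norm_mul]; exact mul_le_of_le_one_right (norm_nonneg _) (hz _)
  · refine (norm_sum_le _ _).trans (sum_le_sum fun i _ => ?_)
    rw [norm_mul]; exact mul_le_of_le_one_right (norm_nonneg _) (hz _)
  · rw [norm_mul]; exact mul_le_of_le_one_right (norm_nonneg _) (hz _)

lemma exp_sub_exp (a b : ℝ) :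
    ‖Complex.exp (Complex.I * (a : ℂ)) - Complex.exp (Complex.I * (b : ℂ))‖ ≤ |a - b| := by
  have e : Complex.exp (Complex.I * (a : ℂ)) - Complex.exp (Complex.I * (b : ℂ))
      = Complex.exp (Complex.I * (b : ℂ)) * (Complex.exp (Complex.I * ((a - b : ℝ) : ℂ)) - 1) := by
    rw [mul_sub, ← Complex.exp_add, mul_one]
    congr 2
    push_cast; ring
  rw [e, norm_mul]
  have h1 : ‖Complex.exp (Complex.I * (b : ℂ))‖ = 1 := by
    rw [mul_comm]; exact Complex.norm_exp_ofReal_mul_I _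
  rw [h1, one_mul]
  have := Real.norm_exp_I_mul_ofReal_sub_one_le (x := a - b)
  simpa using this

/-- The step of the phase divided by `π`. -/
noncomputable def th (t : ℝ) (k : ℕ) : ℝ := 3 / 4 + t / (k * (k + 1))

lemma ph_step (t : ℝ) (k : ℕ) (hk : 1 ≤ k) : ph t (k + 1) = ph t k + Real.pi * th t k := by
  have h : (k : ℝ) ≠ 0 := by positivity
  have h2 : (k : ℝ) + 1 ≠ 0 := by positivity
  unfold ph th
  push_cast
  field_simp
  ring

lemma zz_step (t : ℝ) (k : ℕ) (hk : 1 ≤ k) :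
    zz t (k + 1) = zz t k * Complex.exp (Complex.I * ((Real.pi * th t k : ℝ) : ℂ)) := by
  rw [zz, zz, ← Complex.exp_add, ph_step t k hk]
  congr 1
  push_cast; ring

lemma th_bounds (t : ℝ) (K k : ℕ) (hK : 1 ≤ K) (ht : 4 * |t| ≤ (K : ℝ) ^ 2) (hk : K ≤ k) :
    1 / 2 ≤ th t k ∧ th t k ≤ 1 := by
  have hKr : (1 : ℝ) ≤ K := by exact_mod_cast hK
  have hkr : (K : ℝ) ≤ k := by exact_mod_cast hk
  have hk0 : (0 : ℝ) < k := by linarith
  have h1 : |t / ((k : ℝ) * (k + 1))| ≤ 1 / 4 := by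
    rw [abs_div, abs_of_pos (by positivity : (0 : ℝ) < (k : ℝ) * (k + 1)),
      div_le_iff₀ (by positivity)]
    nlinarith
  rw [abs_le] at h1
  unfold th
  constructor <;> linarith [h1.1, h1.2]

lemma one_le_norm (θ : ℝ) (h1 : 1 / 2 ≤ θ) (h2 : θ ≤ 1) :
    1 ≤ ‖1 - Complex.exp (Complex.I * ((Real.pi * θ : ℝ) : ℂ))‖ := by
  refine le_trans ?_ (Complex.re_le_norm _)
  rw [Complex.sub_re, Complex.one_re, mul_comm, Complex.exp_ofReal_mul_I_re]
  have : Real.cos (Real.pi * θ) ≤ 0 := by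
    apply Real.cos_nonpos_of_pi_div_two_le_of_le
    · nlinarith [Real.pi_pos]
    · nlinarith [Real.pi_pos]
  linarith

/-- The multiplier. -/
noncomputable def qq (t : ℝ) (k : ℕ) : ℂ :=
  (1 - Complex.exp (Complex.I * ((Real.pi * th t k : ℝ) : ℂ)))⁻¹

lemma norm_qq (t : ℝ) (K k : ℕ) (hK : 1 ≤ K) (ht : 4 * |t| ≤ (K : ℝ) ^ 2) (hk : K ≤ k) :
    ‖qq t k‖ ≤ 1 := by
  obtain ⟨h1, h2⟩ := th_bounds t K k hK ht hk
  rw [qq, norm_inv]
  exact inv_le_one_of_one_le₀ (one_le_norm _ h1 h2)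

lemma zz_eq (t : ℝ) (K k : ℕ) (hK : 1 ≤ K) (ht : 4 * |t| ≤ (K : ℝ) ^ 2) (hk : K ≤ k) :
    zz t k = qq t k * (zz t k - zz t (k + 1)) := by
  obtain ⟨h1, h2⟩ := th_bounds t K k hK ht hk
  have h3 := one_le_norm _ h1 h2
  have h4 : (1 - Complex.exp (Complex.I * ((Real.pi * th t k : ℝ) : ℂ))) ≠ 0 := by
    intro h; rw [h] at h3; simp at h3; linarith
  rw [zz_step t k (hK.trans hk), qq]
  field_simp

lemma qq_diff (t : ℝ) (K k : ℕ) (hK : 1 ≤ K) (ht : 4 * |t| ≤ (K : ℝ) ^ 2) (hk : K ≤ k) :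
    ‖qq t (k + 1) - qq t k‖
      ≤ Real.pi * (|t| / (k * (k + 1)) - |t| / ((k + 1 : ℕ) * ((k + 1 : ℕ) + 1))) := by
  obtain ⟨h1, h2⟩ := th_bounds t K k hK ht hk
  obtain ⟨h1', h2'⟩ := th_bounds t K (k + 1) hK ht (hk.trans (Nat.le_succ _))
  have a1 := one_le_norm _ h1 h2
  have a2 := one_le_norm _ h1' h2'
  set A := 1 - Complex.exp (Complex.I * ((Real.pi * th t k : ℝ) : ℂ)) with hA
  set B := 1 - Complex.exp (Complex.I * ((Real.pi * th t (k + 1) : ℝ) : ℂ)) with hB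
  have hA0 : A ≠ 0 := by intro h; rw [h] at a1; simp at a1; linarith
  have hB0 : B ≠ 0 := by intro h; rw [h] at a2; simp at a2; linarith
  have e : qq t (k + 1) - qq t k = (A - B) * (A⁻¹ * B⁻¹) := by
    rw [qq, qq, ← hA, ← hB]; field_simp
  have hinv : ‖A⁻¹ * B⁻¹‖ ≤ 1 := by
    rw [norm_mul, norm_inv, norm_inv]
    exact mul_le_one₀ (inv_le_one_of_one_le₀ a1) (by positivity) (inv_le_one_of_one_le₀ a2)
  have hAB : ‖A - B‖ ≤ |Real.pi * th t (k + 1) - Real.pi * th t k| := by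
    have e2 : A - B = Complex.exp (Complex.I * ((Real.pi * th t (k + 1) : ℝ) : ℂ))
        - Complex.exp (Complex.I * ((Real.pi * th t k : ℝ) : ℂ)) := by
      rw [hA, hB]; ring
    rw [e2]; exact exp_sub_exp _ _
  rw [e, norm_mul]
  refine (mul_le_of_le_one_right (norm_nonneg _) hinv).trans (hAB.trans ?_)
  have hkr : (1 : ℝ) ≤ k := by exact_mod_cast hK.trans hk
  have e3 : Real.pi * th t (k + 1) - Real.pi * th t k
      = -(Real.pi * t * (2 / (k * (k + 1) * (k + 2)))) := by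
    unfold th
    push_cast
    field_simp
    ring
  have e4 : |t| / ((k : ℝ) * (k + 1)) - |t| / ((k + 1 : ℕ) * ((k + 1 : ℕ) + 1))
      = |t| * (2 / (k * (k + 1) * (k + 2))) := by
    push_cast
    field_simp
    ring
  rw [e3, e4, abs_neg, abs_mul, abs_mul, abs_of_pos Real.pi_pos,
    abs_of_pos (by positivity : (0 : ℝ) < 2 / (k * (k + 1) * (k + 2)))]
  rw [mul_assoc]

lemma sqrt_anti (k : ℕ) (hk : 1 ≤ k) : 2 / Real.sqrt ((k + 1 : ℕ) : ℝ) ≤ 2 / Real.sqrt k := by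
  have : (0 : ℝ) < Real.sqrt k := Real.sqrt_pos.mpr (by positivity)
  refine div_le_div_of_nonneg_left (by norm_num) this (Real.sqrt_le_sqrt ?_)
  push_cast; linarith

/-- The tail bound. -/
lemma tail_range (t : ℝ) (K : ℕ) (hK : 1 ≤ K) (ht : 4 * |t| ≤ (K : ℝ) ^ 2) (n : ℕ) :
    ‖∑ i ∈ range (n + 1), ((2 / Real.sqrt ((K + i : ℕ) : ℝ) : ℝ) : ℂ) * zz t (K + i)‖
      ≤ 8 / Real.sqrt K := by
  set w : ℕ → ℝ := fun i => 2 / Real.sqrt ((K + i : ℕ) : ℝ) with hw
  set u : ℕ → ℂ := fun i => (w i : ℂ) * qq t (K + i) with hu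
  set z : ℕ → ℂ := fun i => zz t (K + i) with hz
  have hw0 : ∀ i, 0 ≤ w i := fun i => by rw [hw]; positivity
  have hwa : ∀ i, w (i + 1) ≤ w i := fun i => by
    rw [hw]; exact sqrt_anti (K + i) (by omega)
  have hwm : ∀ i, w i ≤ w 0 := fun i => by
    induction i with
    | zero => exact le_rfl
    | succ i ih => exact (hwa i).trans ih
  have hq : ∀ i, ‖qq t (K + i)‖ ≤ 1 := fun i => norm_qq t K (K + i) hK ht (by omega)
  have hun : ∀ i, ‖u i‖ ≤ w 0 := fun i => by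
    rw [hu]; dsimp only
    rw [norm_mul, Complex.norm_real, Real.norm_of_nonneg (hw0 i)]
    exact (mul_le_of_le_one_right (hw0 i) (hq i)).trans (hwm i)
  have hsum : ∑ i ∈ range (n + 1), (w i : ℂ) * zz t (K + i)
      = ∑ i ∈ range (n + 1), u i * (z i - z (i + 1)) := by
    refine sum_congr rfl fun i _ => ?_
    have := zz_eq t K (K + i) hK ht (by omega)
    rw [hu, hz]; dsimp only
    rw [mul_assoc]
    congr 1
  rw [hsum]
  refine (abel_bound u z (fun i => (norm_zz t (K + i)).le) n).trans ?_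
  set d : ℕ → ℝ := fun i => |t| / (((K + i : ℕ) : ℝ) * ((K + i : ℕ) + 1)) with hd
  have hdiff : ∀ i, ‖u (i + 1) - u i‖ ≤ (w i - w (i + 1)) + w 0 * (Real.pi * (d i - d (i + 1))) := by
    intro i
    have e : u (i + 1) - u i = ((w (i + 1) - w i : ℝ) : ℂ) * qq t (K + (i + 1))
        + (w i : ℂ) * (qq t (K + (i + 1)) - qq t (K + i)) := by
      rw [hu]; dsimp only; push_cast; ring
    rw [e]
    refine (norm_add_le _ _).trans (add_le_add ?_ ?_)
    · rw [norm_mul, Complex.norm_real, Real.norm_eq_abs, abs_sub_comm,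
        abs_of_nonneg (sub_nonneg.mpr (hwa i))]
      exact mul_le_of_le_one_right (sub_nonneg.mpr (hwa i)) (hq (i + 1))
    · rw [norm_mul, Complex.norm_real, Real.norm_of_nonneg (hw0 i)]
      have h1 := qq_diff t K (K + i) hK ht (by omega)
      have h2 : ‖qq t (K + (i + 1)) - qq t (K + i)‖ ≤ Real.pi * (d i - d (i + 1)) := by
        rw [hd]; dsimp only
        have e5 : K + (i + 1) = K + i + 1 := by ring
        rw [e5]
        exact h1
      exact mul_le_mul (hwm i) h2 (norm_nonneg _) (hw0 0)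
  have hd0 : d 0 ≤ 1 / 4 := by
    rw [hd]; dsimp only
    have hKr : (1 : ℝ) ≤ K := by exact_mod_cast hK
    rw [add_zero, div_le_iff₀ (by positivity)]
    nlinarith
  have hdn : 0 ≤ d n := by rw [hd]; positivity
  have hs : ∑ i ∈ range n, ‖u (i + 1) - u i‖
      ≤ (w 0 - w n) + w 0 * (Real.pi * (d 0 - d n)) := by
    refine (sum_le_sum fun i _ => hdiff i).trans ?_
    rw [sum_add_distrib, sum_range_sub', ← mul_sum, ← mul_sum, sum_range_sub']
  have hpi : Real.pi ≤ 4 := Real.pi_le_four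
  have hw00 : w 0 = 2 / Real.sqrt K := by rw [hw]; simp
  have h1 : Real.pi * (d 0 - d n) ≤ 1 := by nlinarith [Real.pi_pos]
  have h2 : w 0 * (Real.pi * (d 0 - d n)) ≤ w 0 := mul_le_of_le_one_right (hw0 0) h1
  have h3 : 8 / Real.sqrt K = 4 * w 0 := by rw [hw00]; ring
  rw [h3]
  linarith [hun 0, hun n, hw0 n]

lemma S_sub (t : ℝ) (K N : ℕ) (hN : K ≤ N) :
    S t N - S t K = ∑ k ∈ Ioc K N, term t k := by
  unfold S
  have h : Icc 1 N = Icc 1 K ∪ Ioc K N := by
    ext k; simp only [mem_union, mem_Icc, mem_Ioc]; omega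
  have hd : Disjoint (Icc 1 K) (Ioc K N) := by
    rw [disjoint_left]; intro k; simp only [mem_Icc, mem_Ioc]; omega
  rw [h, sum_union hd]; ring

lemma tail (t : ℝ) (K N : ℕ) (ht : 4 * |t| ≤ (K : ℝ) ^ 2) (hK : 1 ≤ K) (hN : K ≤ N) :
    |S t N - S t K| ≤ 8 / Real.sqrt K := by
  rw [S_sub t K N hN]
  rcases Nat.eq_or_lt_of_le hN with h | h
  · subst h; simp; positivity
  · obtain ⟨n, hn⟩ : ∃ n, N = K + 1 + n := ⟨N - (K + 1), by omega⟩
    have e : ∑ k ∈ Ioc K N, term t k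
        = (∑ i ∈ range (n + 1), ((2 / Real.sqrt ((K + 1 + i : ℕ) : ℝ) : ℝ) : ℂ)
            * zz t (K + 1 + i)).re := by
      rw [Complex.re_sum]
      have h2 : Ioc K N = (range (n + 1)).image (fun i => K + 1 + i) := by
        ext k
        simp only [mem_Ioc, mem_image, mem_range]
        constructor
        · rintro ⟨h1, h2⟩; exact ⟨k - (K + 1), by omega, by omega⟩
        · rintro ⟨i, h1, h2⟩; omega
      rw [h2, sum_image (by intro a _ b _ hab; simpa using hab)]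
      exact sum_congr rfl fun i _ => term_eq _ _
    rw [e]
    refine (Complex.abs_re_le_norm _).trans ?_
    have ht' : 4 * |t| ≤ ((K + 1 : ℕ) : ℝ) ^ 2 := by
      refine ht.trans ?_
      push_cast
      have : (0 : ℝ) ≤ K := Nat.cast_nonneg _
      nlinarith
    refine (tail_range t (K + 1) (by omega) ht' n).trans ?_
    have h0 : (0 : ℝ) < Real.sqrt K := Real.sqrt_pos.mpr (by exact_mod_cast hK)
    refine div_le_div_of_nonneg_left (by norm_num) h0 (Real.sqrt_le_sqrt ?_)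
    push_cast; linarith

end Pool.Agent.Helper22.PSI
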